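import Pool.Agent.Q171.Mag.Lower

set_option autoImplicit false

open MeasureTheory Set Filter Topology Complex
open scoped ENNReal ComplexConjugate

namespace Pool.Agent.Q171.Mag

/-- the cut-off function -/
noncomputable def chi (L : ℝ) (z : ℂ) : ℝ := (max (1 - rho L z) 0) ^ 3

variable {L : ℝ} {u : ℂ → ℂ} {A : ℂ → ℂ}

theorem chi_contDiff (L : ℝ) : ContDiff ℝ 2 (chi L) := by
  have h := contDiff_pos 2 2 le_rfl
  norm_num at h
  exact h.comp (contDiff_const.sub (rho_contDiff L))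

theorem rho_diff (L : ℝ) : Differentiable ℝ (rho L) := (rho_contDiff L).differentiable two_ne_zero

theorem chi_fderiv (L : ℝ) (z e : ℂ) :
    fderiv ℝ (chi L) z e = -(3 * (max (1 - rho L z) 0) ^ 2 * fderiv ℝ (rho L) z e) := by
  have h1 := (hasDerivAt_pos 1 (1 - rho L z)).comp_hasFDerivAt z
    ((rho_diff L z).hasFDerivAt.const_sub 1)
  have h2 : HasFDerivAt (chi L) _ z := h1
  rw [h2.fderiv]
  simp
  norm_num

theorem rho_nonneg (L : ℝ) (z : ℂ) : 0 ≤ rho L z := by
  unfold rho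
  have := gg_nonneg L z.re
  positivity

theorem chi_nonneg (L : ℝ) (z : ℂ) : 0 ≤ chi L z := by unfold chi; positivity

theorem chi_le (L : ℝ) (z : ℂ) : chi L z ≤ 1 := by
  unfold chi
  refine pow_le_one₀ (le_max_right _ _) (max_le ?_ zero_le_one)
  linarith [rho_nonneg L z]

theorem chi_grad (hL : 0 < L) (z : ℂ) :
    (fderiv ℝ (chi L) z 1) ^ 2 + (fderiv ℝ (chi L) z I) ^ 2 ≤ 180 := by
  rw [chi_fderiv, chi_fderiv]
  rcases le_total (rho L z) 1 with h | h
  · have h1 := grad_bound hL h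
    have h2 : (max (1 - rho L z) 0) ^ 4 ≤ 1 := by
      refine pow_le_one₀ (le_max_right _ _) (max_le ?_ zero_le_one)
      linarith [rho_nonneg L z]
    have h3 : 0 ≤ (max (1 - rho L z) 0) ^ 4 := by positivity
    have h4 : 0 ≤ (fderiv ℝ (rho L) z 1) ^ 2 + (fderiv ℝ (rho L) z I) ^ 2 := by positivity
    calc (-(3 * (max (1 - rho L z) 0) ^ 2 * fderiv ℝ (rho L) z 1)) ^ 2 +
        (-(3 * (max (1 - rho L z) 0) ^ 2 * fderiv ℝ (rho L) z I)) ^ 2
        = 9 * ((max (1 - rho L z) 0) ^ 4 *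
          ((fderiv ℝ (rho L) z 1) ^ 2 + (fderiv ℝ (rho L) z I) ^ 2)) := by ring
      _ ≤ 9 * (1 * 20) := by gcongr
      _ = 180 := by norm_num
  · rw [max_eq_right (by linarith)]
    norm_num

theorem cut_contDiff (hu : ContDiffOn ℝ 2 u (dom L 4)) :
    ContDiff ℝ 2 (fun z => (chi L z : ℂ) * u z) := by
  rw [contDiff_iff_contDiffAt]
  intro z
  by_cases hz : z ∈ dom L 4
  · have h1 : ContDiffAt ℝ 2 u z := hu.contDiffAt ((dom_isOpen L 4).mem_nhds hz)
    have h2 : ContDiffAt ℝ 2 (fun z => (chi L z : ℂ)) z :=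
      (ofRealCLM.contDiff.comp (chi_contDiff L)).contDiffAt
    exact h2.mul h1
  · have h1 : 4 ≤ rho L z := not_lt.1 hz
    have h2 : ∀ᶠ w in 𝓝 z, 1 < rho L w :=
      (rho_continuous L).continuousAt.eventually (lt_mem_nhds (by linarith))
    have h3 : (fun z => (chi L z : ℂ) * u z) =ᶠ[𝓝 z] fun _ => 0 := by
      filter_upwards [h2] with w hw
      unfold chi
      rw [max_eq_right (by linarith)]
      simp
    exact contDiffAt_const.congr_of_eventuallyEq h3

theorem cut_support : Function.support (fun z => (chi L z : ℂ) * u z) ⊆ dom L 1 := by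
  intro z hz
  by_contra h
  have h1 : 1 ≤ rho L z := not_lt.1 h
  apply hz
  show (chi L z : ℂ) * u z = 0
  unfold chi
  rw [max_eq_right (by linarith)]
  simp

theorem cut_tsupport : tsupport (fun z => (chi L z : ℂ) * u z) ⊆ dom L 4 :=
  (closure_mono cut_support).trans (closure_dom (by norm_num))

theorem cut_compact (hL : 0 < L) : HasCompactSupport (fun z => (chi L z : ℂ) * u z) :=
  HasCompactSupport.of_support_subset_isCompact
    ((dom_isC1 hL one_pos (by norm_num)).bounded.isCompact_closure)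
    (cut_support.trans subset_closure)

theorem cut_dens (hL : 0 < L) {z : ℂ} (hz : DifferentiableAt ℝ u z) :
    dens A (fun z => (chi L z : ℂ) * u z) z ≤ 2 * dens A u z + 360 * ‖u z‖ ^ 2 := by
  have hcd : DifferentiableAt ℝ (chi L) z := (chi_contDiff L).differentiable two_ne_zero z
  have h1 : ∀ e : ℂ, fderiv ℝ (fun z => (chi L z : ℂ) * u z) z e =
      chi L z * fderiv ℝ u z e + fderiv ℝ (chi L) z e * u z := by
    intro e
    have h2 : HasFDerivAt (fun z => (chi L z : ℂ)) (ofRealCLM.comp (fderiv ℝ (chi L) z)) z :=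
      ofRealCLM.hasFDerivAt.comp z hcd.hasFDerivAt
    have h3 : HasFDerivAt (fun z => (chi L z : ℂ) * u z) _ z := h2.mul hz.hasFDerivAt
    rw [h3.fderiv]
    simp
    ring
  have key : ∀ (p w : ℂ) (a c d : ℝ), 0 ≤ c → c ≤ 1 →
      ‖-I * (c * p + d * w) - a * (c * w)‖ ^ 2 ≤
        2 * ‖-I * p - a * w‖ ^ 2 + 2 * d ^ 2 * ‖w‖ ^ 2 := by
    intro p w a c d hc0 hc1
    have h2 : -I * (c * p + d * w) - a * (c * w) = c * (-I * p - a * w) + (-I) * (d * w) := by ring
    have h3 : ‖-I * (c * p + d * w) - a * (c * w)‖ ≤ ‖-I * p - a * w‖ + |d| * ‖w‖ := by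
      rw [h2]
      refine (norm_add_le _ _).trans ?_
      rw [norm_mul, norm_mul, norm_mul, norm_neg, norm_I, one_mul, norm_real, norm_real,
        Real.norm_eq_abs, Real.norm_eq_abs, abs_of_nonneg hc0]
      gcongr
      exact mul_le_of_le_one_left (norm_nonneg _) hc1
    have h4 : ‖-I * (c * p + d * w) - a * (c * w)‖ ^ 2 ≤ (‖-I * p - a * w‖ + |d| * ‖w‖) ^ 2 := by
      gcongr
    have h5 : (|d| * ‖w‖) ^ 2 = d ^ 2 * ‖w‖ ^ 2 := by rw [mul_pow, sq_abs]
    nlinarith [sq_nonneg (‖-I * p - a * w‖ - |d| * ‖w‖)]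
  have h2 := key (fderiv ℝ u z 1) (u z) (A z).re (chi L z) (fderiv ℝ (chi L) z 1)
    (chi_nonneg L z) (chi_le L z)
  have h3 := key (fderiv ℝ u z I) (u z) (A z).im (chi L z) (fderiv ℝ (chi L) z I)
    (chi_nonneg L z) (chi_le L z)
  have h4 := mul_le_mul_of_nonneg_right (chi_grad hL z) (sq_nonneg ‖u z‖)
  unfold dens
  rw [h1, h1]
  linarith

theorem core_chi {z : ℂ} (hz : z ∈ core L) : 1 / 6 ≤ (chi L z) ^ 2 := by
  have h1 : rho L z = z.im ^ 2 := by
    unfold rho
    rw [gg_zero hz.1.le, add_zero]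
  have h2 := abs_lt.1 hz.2
  have h3 : z.im ^ 2 ≤ 1 / 4 := by nlinarith
  have h4 : 3 / 4 ≤ max (1 - rho L z) 0 := le_max_of_le_left (by rw [h1]; linarith)
  unfold chi
  calc (1 : ℝ) / 6 ≤ ((3 / 4) ^ 3) ^ 2 := by norm_num
    _ ≤ _ := by gcongr

theorem core_bound {b : ℝ} (hL : 0 < L) (hb : 0 ≤ b) (hA : IsPotential b (dom L 4) (dom L 1) A)
    (hu : ContDiffOn ℝ 2 u (dom L 4)) (hN : IntegrableOn (fun z => ‖u z‖ ^ 2) (dom L 4))
    (hE : IntegrableOn (dens A u) (dom L 4)) :
    b / 6 * ∫ z in core L, ‖u z‖ ^ 2 ≤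
      2 * (∫ z in dom L 4, dens A u z) + 360 * ∫ z in dom L 4, ‖u z‖ ^ 2 := by
  set v : ℂ → ℂ := fun z => (chi L z : ℂ) * u z with hv
  have h1 := magn (dom_isOpen L 4).measurableSet hA (cut_contDiff hu) (cut_compact hL) cut_tsupport
  have hvc : Continuous v := (cut_contDiff hu).continuous
  have hvi : Integrable fun z => ‖v z‖ ^ 2 := by
    refine Continuous.integrable_of_hasCompactSupport (by fun_prop) ?_
    exact (cut_compact hL).comp_left (g := fun x : ℂ => ‖x‖ ^ 2) (by simp)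
  have h2 : ∫ z in dom L 4, dens A v z ≤ ∫ z in dom L 4, (2 * dens A u z + 360 * ‖u z‖ ^ 2) := by
    refine integral_mono_of_nonneg (Eventually.of_forall fun z => dens_nonneg _ _ _)
      ((hE.const_mul 2).add (hN.const_mul 360)) ?_
    refine (ae_restrict_iff' (dom_isOpen L 4).measurableSet).2 (Eventually.of_forall fun z hz => ?_)
    exact cut_dens hL ((hu.differentiableOn two_ne_zero).differentiableAt
      ((dom_isOpen L 4).mem_nhds hz))
  rw [integral_add (hE.const_mul 2) (hN.const_mul 360), integral_const_mul, integral_const_mul] at h2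
  have hsub : core L ⊆ dom L 1 := by
    intro z hz
    have h3 : rho L z = z.im ^ 2 := by
      unfold rho
      rw [gg_zero hz.1.le, add_zero]
    have h4 := abs_lt.1 hz.2
    rw [mem_dom, h3]
    nlinarith
  have hcs : core L ⊆ dom L 4 := hsub.trans (dom_mono (by norm_num))
  have h3 : (1 / 6) * ∫ z in core L, ‖u z‖ ^ 2 ≤ ∫ z in dom L 1, ‖v z‖ ^ 2 := by
    calc (1 / 6) * ∫ z in core L, ‖u z‖ ^ 2 = ∫ z in core L, (1 / 6) * ‖u z‖ ^ 2 := by
          rw [integral_const_mul]
      _ ≤ ∫ z in core L, ‖v z‖ ^ 2 := by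
          refine setIntegral_mono_on ((hN.mono_set hcs).const_mul _) hvi.integrableOn
            (core_open L).measurableSet fun z hz => ?_
          rw [hv]
          simp only [norm_mul, norm_real, mul_pow, Real.norm_eq_abs, sq_abs]
          gcongr
          exact core_chi hz
      _ ≤ _ := by
          refine setIntegral_mono_set hvi.integrableOn (Eventually.of_forall fun z => ?_)
            (Eventually.of_forall hsub)
          show 0 ≤ ‖v z‖ ^ 2
          positivity
  have h4 := mul_le_mul_of_nonneg_left h3 hb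
  linarith

/-- Lower bound for the energy, uniform in `L`. -/
theorem lower {b : ℝ} (hL : 1 ≤ L) (hb : 449280 ≤ b) (hA : IsPotential b (dom L 4) (dom L 1) A)
    (hu : ContDiffOn ℝ 2 u (dom L 4)) (hN : IntegrableOn (fun z => ‖u z‖ ^ 2) (dom L 4))
    (hE : IntegrableOn (dens A u) (dom L 4)) :
    ∫ z in dom L 4, ‖u z‖ ^ 2 ≤ 905 * ∫ z in dom L 4, dens A u z := by
  have h1 := core_bound (by linarith) (by linarith) hA hu hN hE
  have h2 := lower_real hL (hu.of_le (by norm_num)) hA.1 hN hE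
  have hq0 : 0 ≤ ∫ z in core L, ‖u z‖ ^ 2 := integral_nonneg fun z => by positivity
  have hE0 : 0 ≤ ∫ z in dom L 4, dens A u z := integral_nonneg fun z => dens_nonneg A u z
  have h3 : 449280 / 6 * ∫ z in core L, ‖u z‖ ^ 2 ≤ b / 6 * ∫ z in core L, ‖u z‖ ^ 2 := by gcongr
  linarith

end Pool.Agent.Q171.Mag
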