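import Mathlib

/-!
The magnetic Laplacian with Neumann boundary condition on plane domains: basic definitions.
The plane is `ℂ`; a vector field `A = (A₁, A₂)` is the function `A : ℂ → ℂ` with
`A₁ = (A z).re`, `A₂ = (A z).im`.
-/

set_option autoImplicit false

open MeasureTheory Set Filter Topology Complex
open scoped ENNReal

namespace Pool.Agent.Q171.Mag

/-- `|(-i∇ - A)u|²` at the point `z`. -/
noncomputable def dens (A u : ℂ → ℂ) (z : ℂ) : ℝ :=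
  ‖-I * fderiv ℝ u z 1 - (A z).re * u z‖ ^ 2 + ‖-I * fderiv ℝ u z I - (A z).im * u z‖ ^ 2

/-- `A` is a bounded measurable vector potential on `Ω` with `curl A = b 1_ω` (weakly). -/
def IsPotential (b : ℝ) (Ω ω : Set ℂ) (A : ℂ → ℂ) : Prop :=
  Measurable A ∧ (∃ M : ℝ, ∀ z ∈ Ω, ‖A z‖ ≤ M) ∧
    ∀ φ : ℂ → ℝ, ContDiff ℝ 1 φ → HasCompactSupport φ → tsupport φ ⊆ Ω →
      ∫ z in Ω, ((A z).re * fderiv ℝ φ z I - (A z).im * fderiv ℝ φ z 1) = b * ∫ z in ω, φ z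

/-- The Rayleigh quotient infimum. -/
noncomputable def lam (A : ℂ → ℂ) (Ω : Set ℂ) : ℝ :=
  sInf {r : ℝ | ∃ u : ℂ → ℂ, ContDiffOn ℝ 2 u Ω ∧ IntegrableOn (fun z => ‖u z‖ ^ 2) Ω ∧
    IntegrableOn (dens A u) Ω ∧ 0 < ∫ z in Ω, ‖u z‖ ^ 2 ∧
    r = (∫ z in Ω, dens A u z) / ∫ z in Ω, ‖u z‖ ^ 2}

/-- A bounded simply connected plane domain with `C¹` boundary: near each boundary point `p` it is
the set `{r < 0}` of a `C¹` function `r` with nonzero gradient at `p`. -/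
structure IsC1Domain (Ω : Set ℂ) : Prop where
  isOpen : IsOpen Ω
  bounded : Bornology.IsBounded Ω
  simplyConnected : SimplyConnectedSpace Ω
  boundary : ∀ p ∈ frontier Ω, ∃ r : ℂ → ℝ, ContDiffAt ℝ 1 r p ∧ r p = 0 ∧ fderiv ℝ r p ≠ 0 ∧
    ∀ᶠ z in 𝓝 p, (z ∈ Ω ↔ r z < 0)

end Pool.Agent.Q171.Mag
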