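import Pool.Agent.Q171.Mag.Defs

set_option autoImplicit false

open MeasureTheory Set Filter Topology Complex Metric
open scoped ENNReal ComplexConjugate

namespace Pool.Agent.Q171.Mag

/-- `z / max (|z|², r²)` -/
noncomputable def VV (r : ℝ) (z : ℂ) : ℂ := ((max (‖z‖ ^ 2) (r ^ 2))⁻¹ : ℝ) * z

theorem VV_re (r : ℝ) (z : ℂ) : (VV r z).re = (max (‖z‖ ^ 2) (r ^ 2))⁻¹ * z.re := by
  simp [VV]

theorem VV_im (r : ℝ) (z : ℂ) : (VV r z).im = (max (‖z‖ ^ 2) (r ^ 2))⁻¹ * z.im := by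
  simp [VV]

theorem nsq (z : ℂ) : ‖z‖ ^ 2 = z.re ^ 2 + z.im ^ 2 := by
  rw [← Complex.normSq_eq_norm_sq, Complex.normSq_apply]
  ring

theorem VV_aux {r a b c : ℝ} (hr : 0 < r) (ha : 0 ≤ a) (hb : 0 ≤ b)
    (hab : 0 ≤ a + b - 2 * c) :
    (max a (r ^ 2))⁻¹ ^ 2 * a - 2 * (max a (r ^ 2))⁻¹ * (max b (r ^ 2))⁻¹ * c +
      (max b (r ^ 2))⁻¹ ^ 2 * b ≤ (a + b - 2 * c) / r ^ 4 := by
  have hr2 : 0 < r ^ 2 := by positivity
  have mixed : ∀ x y : ℝ, 0 ≤ x → 0 ≤ y → 0 ≤ x + y - 2 * c → x ≤ r ^ 2 → r ^ 2 ≤ y →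
      (r ^ 2)⁻¹ ^ 2 * x - 2 * (r ^ 2)⁻¹ * y⁻¹ * c + y⁻¹ ^ 2 * y ≤ (x + y - 2 * c) / r ^ 4 := by
    intro x y hx hy hxy h1 h2
    have hy0 : 0 < y := lt_of_lt_of_le hr2 h2
    have e1 : (r ^ 2)⁻¹ ^ 2 * x - 2 * (r ^ 2)⁻¹ * y⁻¹ * c + y⁻¹ ^ 2 * y =
        (x * y - 2 * c * r ^ 2 + r ^ 4) / (r ^ 4 * y) := by
      field_simp
    have e2 : (x + y - 2 * c) / r ^ 4 = (y * (x + y - 2 * c)) / (r ^ 4 * y) := by
      field_simp
    rw [e1, e2]
    refine div_le_div_of_nonneg_right ?_ (by positivity)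
    have h3 : 0 ≤ (y - r ^ 2) * (y + r ^ 2 - 2 * c) :=
      mul_nonneg (by linarith) (by linarith)
    nlinarith
  rcases le_total a (r ^ 2) with h1 | h1 <;> rcases le_total b (r ^ 2) with h2 | h2
  · rw [max_eq_right h1, max_eq_right h2]
    apply le_of_eq
    field_simp
    ring
  · rw [max_eq_right h1, max_eq_left h2]
    exact mixed a b ha hb hab h1 h2
  · rw [max_eq_left h1, max_eq_right h2]
    have := mixed b a hb ha (by linarith) h2 h1
    rw [show b + a - 2 * c = a + b - 2 * c by ring] at this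
    linarith
  · rw [max_eq_left h1, max_eq_left h2]
    have ha0 : 0 < a := lt_of_lt_of_le hr2 h1
    have hb0 : 0 < b := lt_of_lt_of_le hr2 h2
    have e1 : a⁻¹ ^ 2 * a - 2 * a⁻¹ * b⁻¹ * c + b⁻¹ ^ 2 * b = (a + b - 2 * c) / (a * b) := by
      field_simp
      ring
    rw [e1]
    refine div_le_div_of_nonneg_left hab (by positivity) ?_
    nlinarith

theorem VV_lip {r : ℝ} (hr : 0 < r) (z w : ℂ) : ‖VV r z - VV r w‖ ≤ (r ^ 2)⁻¹ * ‖z - w‖ := by
  refine le_of_sq_le_sq ?_ (by positivity)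
  rw [mul_pow, nsq, nsq]
  have hab : 0 ≤ ‖z‖ ^ 2 + ‖w‖ ^ 2 - 2 * (z.re * w.re + z.im * w.im) := by
    rw [nsq, nsq]
    nlinarith [sq_nonneg (z.re - w.re), sq_nonneg (z.im - w.im)]
  have h := VV_aux hr (sq_nonneg ‖z‖) (sq_nonneg ‖w‖) hab
  simp only [sub_re, sub_im, VV_re, VV_im]
  have e1 : ((max (‖z‖ ^ 2) (r ^ 2))⁻¹ * z.re - (max (‖w‖ ^ 2) (r ^ 2))⁻¹ * w.re) ^ 2 +
      ((max (‖z‖ ^ 2) (r ^ 2))⁻¹ * z.im - (max (‖w‖ ^ 2) (r ^ 2))⁻¹ * w.im) ^ 2 =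
      (max (‖z‖ ^ 2) (r ^ 2))⁻¹ ^ 2 * ‖z‖ ^ 2 -
      2 * (max (‖z‖ ^ 2) (r ^ 2))⁻¹ * (max (‖w‖ ^ 2) (r ^ 2))⁻¹ * (z.re * w.re + z.im * w.im) +
      (max (‖w‖ ^ 2) (r ^ 2))⁻¹ ^ 2 * ‖w‖ ^ 2 := by
    generalize (max (‖z‖ ^ 2) (r ^ 2))⁻¹ = s
    generalize (max (‖w‖ ^ 2) (r ^ 2))⁻¹ = t
    rw [nsq, nsq]
    ring
  have e2 : (r ^ 2)⁻¹ ^ 2 * ((z.re - w.re) ^ 2 + (z.im - w.im) ^ 2) =
      (‖z‖ ^ 2 + ‖w‖ ^ 2 - 2 * (z.re * w.re + z.im * w.im)) / r ^ 4 := by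
    rw [nsq, nsq]
    field_simp
    ring
  rw [e1, e2]
  exact h

theorem VV_lipschitz {r : ℝ} (hr : 0 < r) : LipschitzWith (Real.toNNReal ((r ^ 2)⁻¹)) (VV r) := by
  refine LipschitzWith.of_dist_le_mul fun z w => ?_
  rw [dist_eq_norm, dist_eq_norm, Real.coe_toNNReal _ (by positivity)]
  exact VV_lip hr z w

/-- divergence of `VV` -/
theorem VV_div {r : ℝ} (hr : 0 < r) {z : ℂ} (hz : ‖z‖ ≠ r) :
    lineDeriv ℝ (fun z => (VV r z).re) z 1 + lineDeriv ℝ (fun z => (VV r z).im) z I =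
      (ball (0 : ℂ) r).indicator (fun _ => 2 / r ^ 2) z := by
  rcases lt_or_gt_of_ne hz with h | h
  · have h1 : ∀ᶠ w in 𝓝 z, ‖w‖ < r := continuous_norm.continuousAt.eventually (gt_mem_nhds h)
    have h2 : ∀ w : ℂ, ‖w‖ < r → max (‖w‖ ^ 2) (r ^ 2) = r ^ 2 := fun w hw =>
      max_eq_right (pow_le_pow_left₀ (norm_nonneg _) hw.le 2)
    have e1 : (fun z => (VV r z).re) =ᶠ[𝓝 z] fun z => (r ^ 2)⁻¹ * z.re := by
      filter_upwards [h1] with w hw
      rw [VV_re, h2 w hw]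
    have e2 : (fun z => (VV r z).im) =ᶠ[𝓝 z] fun z => (r ^ 2)⁻¹ * z.im := by
      filter_upwards [h1] with w hw
      rw [VV_im, h2 w hw]
    have d1 : HasFDerivAt (fun z : ℂ => (VV r z).re) ((r ^ 2)⁻¹ • reCLM) z :=
      HasFDerivAt.congr_of_eventuallyEq (reCLM.hasFDerivAt.const_mul _) e1
    have d2 : HasFDerivAt (fun z : ℂ => (VV r z).im) ((r ^ 2)⁻¹ • imCLM) z :=
      HasFDerivAt.congr_of_eventuallyEq (imCLM.hasFDerivAt.const_mul _) e2
    rw [(d1.hasLineDerivAt 1).lineDeriv, (d2.hasLineDerivAt I).lineDeriv,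
      Set.indicator_of_mem (by simpa using h)]
    simp
    ring
  · have hz0 : ‖z‖ ^ 2 ≠ 0 := by
      have : 0 < ‖z‖ := hr.trans h
      positivity
    have h1 : ∀ᶠ w in 𝓝 z, r < ‖w‖ := continuous_norm.continuousAt.eventually (lt_mem_nhds h)
    have h2 : ∀ w : ℂ, r < ‖w‖ → max (‖w‖ ^ 2) (r ^ 2) = ‖w‖ ^ 2 := fun w hw =>
      max_eq_left (pow_le_pow_left₀ hr.le hw.le 2)
    have hq : HasFDerivAt (fun z : ℂ => ‖z‖ ^ 2) ((2 * z.re) • reCLM + (2 * z.im) • imCLM) z := by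
      have h3 : HasFDerivAt (fun z : ℂ => (reCLM z) ^ 2 + (imCLM z) ^ 2) _ z :=
        ((reCLM.hasFDerivAt (x := z)).pow 2).add ((imCLM.hasFDerivAt (x := z)).pow 2)
      have h4 : (fun z : ℂ => ‖z‖ ^ 2) = fun z => (reCLM z) ^ 2 + (imCLM z) ^ 2 := by
        funext z
        simp [nsq]
      rw [h4]
      refine h3.congr_fderiv ?_
      ext; simp
    have hinv : HasFDerivAt (fun z : ℂ => (‖z‖ ^ 2)⁻¹)
        ((-((‖z‖ ^ 2) ^ 2)⁻¹) • ((2 * z.re) • reCLM + (2 * z.im) • imCLM)) z :=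
      (hasDerivAt_inv hz0).comp_hasFDerivAt z hq
    have e1 : (fun z => (VV r z).re) =ᶠ[𝓝 z] fun z => (‖z‖ ^ 2)⁻¹ * reCLM z := by
      filter_upwards [h1] with w hw
      rw [VV_re, h2 w hw, reCLM_apply]
    have e2 : (fun z => (VV r z).im) =ᶠ[𝓝 z] fun z => (‖z‖ ^ 2)⁻¹ * imCLM z := by
      filter_upwards [h1] with w hw
      rw [VV_im, h2 w hw, imCLM_apply]
    have d1 : HasFDerivAt (fun z : ℂ => (VV r z).re) _ z :=
      HasFDerivAt.congr_of_eventuallyEq (hinv.mul reCLM.hasFDerivAt) e1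
    have d2 : HasFDerivAt (fun z : ℂ => (VV r z).im) _ z :=
      HasFDerivAt.congr_of_eventuallyEq (hinv.mul imCLM.hasFDerivAt) e2
    rw [(d1.hasLineDerivAt 1).lineDeriv, (d2.hasLineDerivAt I).lineDeriv,
      Set.indicator_of_notMem (by simpa using h.le)]
    simp
    rw [nsq] at hz0 ⊢
    field_simp
    ring

theorem VV_weak {r : ℝ} (hr : 0 < r) {φ : ℂ → ℝ} (hφ : ContDiff ℝ 1 φ)
    (hc : HasCompactSupport φ) :
    ∫ z, ((VV r z).re * fderiv ℝ φ z 1 + (VV r z).im * fderiv ℝ φ z I) =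
      -(2 / r ^ 2 * ∫ z in ball (0 : ℂ) r, φ z) := by
  obtain ⟨C, hC⟩ := hφ.lipschitzWith_of_hasCompactSupport hc one_ne_zero
  have hVl := VV_lipschitz hr
  have hre : LipschitzWith (1 * Real.toNNReal ((r ^ 2)⁻¹)) fun z => (VV r z).re :=
    (LipschitzWith.of_dist_le_mul fun x y => by
      rw [dist_eq_norm, dist_eq_norm, NNReal.coe_one, one_mul, ← sub_re]
      exact abs_re_le_norm _ : LipschitzWith 1 Complex.re).comp hVl
  have him : LipschitzWith (1 * Real.toNNReal ((r ^ 2)⁻¹)) fun z => (VV r z).im :=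
    (LipschitzWith.of_dist_le_mul fun x y => by
      rw [dist_eq_norm, dist_eq_norm, NNReal.coe_one, one_mul, ← sub_im]
      exact abs_im_le_norm _ : LipschitzWith 1 Complex.im).comp hVl
  have hd : Differentiable ℝ φ := hφ.differentiable one_ne_zero
  have h1 := hre.integral_lineDeriv_mul_eq (μ := volume) hC hc 1
  have h2 := him.integral_lineDeriv_mul_eq (μ := volume) hC hc I
  have hl : ∀ z v, lineDeriv ℝ φ z (-v) = - fderiv ℝ φ z v := by
    intro z v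
    rw [(hd z).lineDeriv_eq_fderiv, map_neg]
  simp only [hl] at h1 h2
  have hdc : ∀ e : ℂ, Continuous fun z => fderiv ℝ φ z e := fun e =>
    (hφ.continuous_fderiv one_ne_zero).clm_apply continuous_const
  have hds : ∀ e : ℂ, HasCompactSupport fun z => fderiv ℝ φ z e := fun e =>
    hc.fderiv_apply ℝ e
  have i1 : Integrable fun z => (VV r z).re * fderiv ℝ φ z 1 :=
    Continuous.integrable_of_hasCompactSupport (hre.continuous.mul (hdc 1)) (hds 1).mul_left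
  have i2 : Integrable fun z => (VV r z).im * fderiv ℝ φ z I :=
    Continuous.integrable_of_hasCompactSupport (him.continuous.mul (hdc I)) (hds I).mul_left
  have hφi : Integrable φ := hφ.continuous.integrable_of_hasCompactSupport hc
  have bound : ∀ {f : ℂ → ℝ} {K : NNReal}, LipschitzWith K f → ∀ v : ℂ,
      Integrable fun z => lineDeriv ℝ f z v * φ z := by
    intro f K hf v
    refine Integrable.bdd_mul (c := K * ‖v‖) hφi ?_ ?_
    · exact (measurable_lineDeriv hf.continuous).aestronglyMeasurable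
    · exact Eventually.of_forall fun z => norm_lineDeriv_le_of_lipschitz ℝ hf
  have h3 : (∫ z, lineDeriv ℝ (fun z => (VV r z).re) z 1 * φ z) +
      (∫ z, lineDeriv ℝ (fun z => (VV r z).im) z I * φ z) =
      2 / r ^ 2 * ∫ z in ball (0 : ℂ) r, φ z := by
    rw [← integral_add (bound hre 1) (bound him I)]
    have h4 : (fun z => lineDeriv ℝ (fun z => (VV r z).re) z 1 * φ z +
        lineDeriv ℝ (fun z => (VV r z).im) z I * φ z) =ᵐ[volume]
        (ball (0 : ℂ) r).indicator (fun z => 2 / r ^ 2 * φ z) := by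
      have h5 : ∀ᵐ z : ℂ, z ∉ sphere (0 : ℂ) r :=
        measure_eq_zero_iff_ae_notMem.1 (Measure.addHaar_sphere volume 0 r)
      filter_upwards [h5] with z hz
      rw [← add_mul, VV_div hr (by simpa using hz)]
      by_cases hz' : z ∈ ball (0 : ℂ) r
      · rw [Set.indicator_of_mem hz', Set.indicator_of_mem hz']
      · rw [Set.indicator_of_notMem hz', Set.indicator_of_notMem hz', zero_mul]
    rw [integral_congr_ae h4, integral_indicator measurableSet_ball, integral_const_mul]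
  rw [integral_add i1 i2]
  have h6 : ∫ z, (VV r z).re * fderiv ℝ φ z 1 = - ∫ z, -fderiv ℝ φ z 1 * (VV r z).re := by
    rw [← integral_neg]
    refine integral_congr_ae (Eventually.of_forall fun z => ?_)
    simp only
    ring
  have h7 : ∫ z, (VV r z).im * fderiv ℝ φ z I = - ∫ z, -fderiv ℝ φ z I * (VV r z).im := by
    rw [← integral_neg]
    refine integral_congr_ae (Eventually.of_forall fun z => ?_)
    simp only
    ring
  rw [h6, h7, ← h1, ← h2, ← h3]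
  ring

end Pool.Agent.Q171.Mag
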