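import Pool.Agent.Q171.Mag.Defs

set_option autoImplicit false

open MeasureTheory Set Filter Topology Complex
open scoped ENNReal ComplexConjugate

namespace Pool.Agent.Q171.Mag

theorem hasDerivAt_pos (k : ℕ) (t : ℝ) :
    HasDerivAt (fun t : ℝ => (max t 0) ^ (k + 2)) ((k + 2) * (max t 0) ^ (k + 1)) t := by
  rcases lt_trichotomy t 0 with h | h | h
  · have h1 : (fun t : ℝ => (max t 0) ^ (k + 2)) =ᶠ[𝓝 t] fun _ => 0 := by
      filter_upwards [gt_mem_nhds h] with s hs
      rw [max_eq_right hs.le]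
      simp
    rw [max_eq_right h.le]
    simpa using (hasDerivAt_const t (0 : ℝ)).congr_of_eventuallyEq h1
  · subst h
    simp only [max_self]
    rw [hasDerivAt_iff_isLittleO_nhds_zero]
    have h1 : (fun h : ℝ => (max (0 + h) 0) ^ (k + 2) - (max (0 : ℝ) 0) ^ (k + 2) -
        h • ((k + 2 : ℝ) * 0 ^ (k + 1))) = fun h : ℝ => (max h 0) ^ (k + 2) := by
      funext h
      simp
    rw [h1]
    refine Asymptotics.IsBigO.trans_isLittleO (g := fun h : ℝ => h ^ (k + 2)) ?_
      (Asymptotics.isLittleO_pow_id (by omega))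
    refine Asymptotics.IsBigO.of_bound 1 (Eventually.of_forall fun h => ?_)
    rw [norm_pow, norm_pow, one_mul]
    refine pow_le_pow_left₀ (norm_nonneg _) ?_ _
    rw [Real.norm_eq_abs, Real.norm_eq_abs, abs_of_nonneg (le_max_right _ _)]
    exact max_le (le_abs_self _) (abs_nonneg _)
  · have h1 : (fun t : ℝ => (max t 0) ^ (k + 2)) =ᶠ[𝓝 t] fun t => t ^ (k + 2) := by
      filter_upwards [lt_mem_nhds h] with s hs
      rw [max_eq_left hs.le]
    rw [max_eq_left h.le]
    have h2 := (hasDerivAt_pow (k + 2) t).congr_of_eventuallyEq h1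
    have h3 : ((k + 2 : ℕ) : ℝ) * t ^ (k + 2 - 1) = (k + 2) * t ^ (k + 1) := by
      push_cast
      rfl
    rw [← h3]
    exact h2

theorem contDiff_pos (n : ℕ) : ∀ k : ℕ, n ≤ k → ContDiff ℝ n (fun t : ℝ => (max t 0) ^ (k + 1)) := by
  induction n with
  | zero =>
    intro k _
    rw [Nat.cast_zero, contDiff_zero]
    fun_prop
  | succ n ih =>
    intro k hk
    obtain ⟨j, rfl⟩ : ∃ j, k = j + 1 := ⟨k - 1, by omega⟩
    push_cast
    rw [contDiff_succ_iff_deriv]
    refine ⟨fun t => (hasDerivAt_pos j t).differentiableAt, by simp, ?_⟩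
    have h1 : deriv (fun t : ℝ => (max t 0) ^ (j + 1 + 1)) =
        fun t => ((j : ℝ) + 2) * (max t 0) ^ (j + 1) := funext fun t => (hasDerivAt_pos j t).deriv
    rw [h1]
    exact contDiff_const.mul (ih j (by omega))

/-- the profile of the caps -/
noncomputable def gg (L x : ℝ) : ℝ := (max (x - L) 0) ^ 4 + (max (-x - L) 0) ^ 4

/-- the defining function -/
noncomputable def rho (L : ℝ) (z : ℂ) : ℝ := z.im ^ 2 + gg L z.re

/-- its sublevel sets -/
def dom (L c : ℝ) : Set ℂ := {z | rho L z < c}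

theorem mem_dom {L c : ℝ} {z : ℂ} : z ∈ dom L c ↔ rho L z < c := Iff.rfl

theorem gg_contDiff (L : ℝ) : ContDiff ℝ 2 (gg L) := by
  have h := contDiff_pos 2 3 (by norm_num)
  norm_num at h
  unfold gg
  exact (h.comp (contDiff_id.sub contDiff_const)).add (h.comp (contDiff_id.neg.sub contDiff_const))

theorem rho_contDiff (L : ℝ) : ContDiff ℝ 2 (rho L) := by
  unfold rho
  exact (imCLM.contDiff.pow 2).add ((gg_contDiff L).comp reCLM.contDiff)

theorem gg_nonneg (L x : ℝ) : 0 ≤ gg L x := by unfold gg; positivity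

theorem gg_deriv (L x : ℝ) :
    HasDerivAt (gg L) (4 * (max (x - L) 0) ^ 3 - 4 * (max (-x - L) 0) ^ 3) x := by
  have h1 := (hasDerivAt_pos 2 (x - L)).comp x ((hasDerivAt_id x).sub_const L)
  have h2 := (hasDerivAt_pos 2 (-x - L)).comp x ((hasDerivAt_id x).neg.sub_const L)
  have h3 := h1.add h2
  have h4 : gg L = (fun t : ℝ => (max t 0) ^ (2 + 2)) ∘ (fun x => id x - L) +
      (fun t : ℝ => (max t 0) ^ (2 + 2)) ∘ (fun x => -id x - L) := by
    funext x
    simp [gg]
  rw [h4]
  refine h3.congr_deriv ?_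
  norm_num
  ring

theorem rho_fderiv (L : ℝ) (z e : ℂ) : fderiv ℝ (rho L) z e = 2 * z.im * e.im +
    (4 * (max (z.re - L) 0) ^ 3 - 4 * (max (-z.re - L) 0) ^ 3) * e.re := by
  have h1 : HasFDerivAt (fun z : ℂ => z.im ^ 2) ((2 * z.im) • imCLM) z := by
    have := (imCLM.hasFDerivAt (x := z)).pow 2
    simpa using this
  have h2 : HasFDerivAt (fun z : ℂ => gg L z.re)
      ((4 * (max (z.re - L) 0) ^ 3 - 4 * (max (-z.re - L) 0) ^ 3) • reCLM) z :=
    (gg_deriv L z.re).comp_hasFDerivAt z reCLM.hasFDerivAt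
  have h3 : HasFDerivAt (rho L) _ z := h1.add h2
  rw [h3.fderiv]
  simp

theorem gg_convex (L : ℝ) : ConvexOn ℝ univ (gg L) := by
  have h1 : ConvexOn ℝ univ fun x : ℝ => max (x - L) 0 := by
    have : ConvexOn ℝ univ fun x : ℝ => x - L := by
      refine ⟨convex_univ, fun x _ y _ a b _ _ hab => le_of_eq ?_⟩
      simp only [smul_eq_mul]
      linear_combination L * hab
    exact this.sup (convexOn_const 0 convex_univ)
  have h2 : ConvexOn ℝ univ fun x : ℝ => max (-x - L) 0 := by
    have : ConvexOn ℝ univ fun x : ℝ => -x - L := by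
      refine ⟨convex_univ, fun x _ y _ a b _ _ hab => le_of_eq ?_⟩
      simp only [smul_eq_mul]
      linear_combination L * hab
    exact this.sup (convexOn_const 0 convex_univ)
  exact (h1.pow (fun x _ => le_max_right _ _) 4).add (h2.pow (fun x _ => le_max_right _ _) 4)

theorem rho_convex (L : ℝ) : ConvexOn ℝ univ (rho L) := by
  have h1 : ConvexOn ℝ univ fun z : ℂ => z.im ^ 2 := by
    have := (even_two.convexOn_pow (𝕜 := ℝ)).comp_linearMap imCLM.toLinearMap
    simpa [Function.comp_def] using this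
  have h2 : ConvexOn ℝ univ fun z : ℂ => gg L z.re := by
    have := (gg_convex L).comp_linearMap reCLM.toLinearMap
    simpa [Function.comp_def] using this
  exact h1.add h2

theorem rho_continuous (L : ℝ) : Continuous (rho L) := (rho_contDiff L).continuous

theorem dom_isOpen (L c : ℝ) : IsOpen (dom L c) := isOpen_lt (rho_continuous L) continuous_const

theorem dom_convex (L c : ℝ) : Convex ℝ (dom L c) := by
  have := (rho_convex L).convex_lt c
  simpa [dom] using this

theorem gg_zero {L x : ℝ} (h : |x| ≤ L) : gg L x = 0 := by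
  have := abs_le.1 h
  unfold gg
  rw [max_eq_right (by linarith), max_eq_right (by linarith)]
  norm_num

theorem rho_zero {L : ℝ} (hL : 0 ≤ L) : rho L 0 = 0 := by
  unfold rho
  rw [gg_zero (by simpa using hL)]
  simp

theorem im_sq_lt {L c : ℝ} {z : ℂ} (hz : z ∈ dom L c) : z.im ^ 2 < c := by
  have h1 : z.im ^ 2 + gg L z.re < c := hz
  linarith [gg_nonneg L z.re]

theorem re_lt {L k : ℝ} (hk : 0 ≤ k) {z : ℂ} (hz : z ∈ dom L (k ^ 4)) : |z.re| < L + k := by
  have h1 : z.im ^ 2 + gg L z.re < k ^ 4 := hz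
  have h2 : gg L z.re < k ^ 4 := by nlinarith [sq_nonneg z.im]
  unfold gg at h2
  have h3 : (max (z.re - L) 0) ^ 4 < k ^ 4 := by
    have : 0 ≤ (max (-z.re - L) 0) ^ 4 := by positivity
    linarith
  have h4 : (max (-z.re - L) 0) ^ 4 < k ^ 4 := by
    have : 0 ≤ (max (z.re - L) 0) ^ 4 := by positivity
    linarith
  have h5 := lt_of_pow_lt_pow_left₀ 4 hk h3
  have h6 := lt_of_pow_lt_pow_left₀ 4 hk h4
  rw [abs_lt]
  constructor
  · linarith [le_max_left (-z.re - L) 0]
  · linarith [le_max_left (z.re - L) 0]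

theorem dom_mono {L c d : ℝ} (h : c ≤ d) : dom L c ⊆ dom L d := fun _ hz => lt_of_lt_of_le hz h

theorem rho_grad {L : ℝ} (hL : 0 < L) {z : ℂ} (h : fderiv ℝ (rho L) z = 0) : rho L z = 0 := by
  have h1 : fderiv ℝ (rho L) z I = 0 := by rw [h]; rfl
  have h2 : fderiv ℝ (rho L) z 1 = 0 := by rw [h]; rfl
  rw [rho_fderiv] at h1 h2
  simp at h1 h2
  have h3 : (max (z.re - L) 0) ^ 3 = (max (-z.re - L) 0) ^ 3 := by linarith
  unfold rho gg
  rcases le_total 0 z.re with h4 | h4
  · rw [max_eq_right (by linarith : -z.re - L ≤ 0)] at h3 ⊢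
    have h5 : max (z.re - L) 0 = 0 := by
      have : (max (z.re - L) 0) ^ 3 = 0 := by rw [h3]; norm_num
      exact pow_eq_zero_iff (by norm_num) |>.1 this
    rw [h5, h1]
    norm_num
  · rw [max_eq_right (by linarith : z.re - L ≤ 0)] at h3 ⊢
    have h5 : max (-z.re - L) 0 = 0 := by
      have : (max (-z.re - L) 0) ^ 3 = 0 := by rw [← h3]; norm_num
      exact pow_eq_zero_iff (by norm_num) |>.1 this
    rw [h5, h1]
    norm_num

theorem grad_bound {L : ℝ} (hL : 0 < L) {z : ℂ} (h : rho L z ≤ 1) :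
    (fderiv ℝ (rho L) z 1) ^ 2 + (fderiv ℝ (rho L) z I) ^ 2 ≤ 20 := by
  rw [rho_fderiv, rho_fderiv]
  simp
  have h1 : z.im ^ 2 + ((max (z.re - L) 0) ^ 4 + (max (-z.re - L) 0) ^ 4) ≤ 1 := h
  set p := max (z.re - L) 0 with hp
  set q := max (-z.re - L) 0 with hq
  have hp0 : 0 ≤ p := le_max_right _ _
  have hq0 : 0 ≤ q := le_max_right _ _
  have hp1 : p ^ 4 ≤ 1 := by nlinarith [sq_nonneg z.im, pow_nonneg hq0 4]
  have hq1 : q ^ 4 ≤ 1 := by nlinarith [sq_nonneg z.im, pow_nonneg hp0 4]
  have hp2 : p ≤ 1 := by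
    by_contra hcon
    push Not at hcon
    nlinarith [pow_lt_pow_left₀ hcon (by norm_num) (n := 4) (by norm_num)]
  have hq2 : q ≤ 1 := by
    by_contra hcon
    push Not at hcon
    nlinarith [pow_lt_pow_left₀ hcon (by norm_num) (n := 4) (by norm_num)]
  have hpq : p = 0 ∨ q = 0 := by
    rcases le_total 0 z.re with h4 | h4
    · right
      rw [hq, max_eq_right (by linarith)]
    · left
      rw [hp, max_eq_right (by linarith)]
  have him : z.im ^ 2 ≤ 1 := by nlinarith [pow_nonneg hq0 4, pow_nonneg hp0 4]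
  have hp6 : p ^ 6 ≤ 1 := pow_le_one₀ hp0 hp2
  have hq6 : q ^ 6 ≤ 1 := pow_le_one₀ hq0 hq2
  rcases hpq with h0 | h0
  · rw [h0]
    nlinarith
  · rw [h0]
    nlinarith

theorem dom_isC1 {L c : ℝ} (hL : 0 < L) (hc : 0 < c) (hc4 : c ≤ 4) : IsC1Domain (dom L c) where
  isOpen := dom_isOpen L c
  bounded := by
    refine (Metric.isBounded_closedBall (x := (0 : ℂ)) (r := (L + 2) + 2)).subset fun z hz => ?_
    rw [mem_closedBall_zero_iff]
    have h1 : z ∈ dom L 4 := dom_mono hc4 hz
    have h2 : z ∈ dom L (2 ^ 4) := dom_mono (by norm_num) h1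
    have h3 := re_lt (by norm_num) h2
    have h4 := im_sq_lt h1
    have h5 : |z.im| < 2 := by
      refine abs_lt_of_sq_lt_sq (by linarith) (by norm_num)
    exact (norm_le_abs_re_add_abs_im z).trans (by linarith)
  simplyConnected := by
    have : ContractibleSpace (dom L c) :=
      (dom_convex L c).contractibleSpace ⟨0, by rw [mem_dom, rho_zero hL.le]; exact hc⟩
    infer_instance
  boundary := by
    intro p hp
    have h1 : rho L p = c := frontier_lt_subset_eq (rho_continuous L) continuous_const hp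
    have h2 : fderiv ℝ (rho L) p ≠ 0 := by
      intro h
      have := rho_grad hL h
      linarith
    refine ⟨fun z => rho L z - c, ?_, by simp [h1], ?_, ?_⟩
    · exact (((rho_contDiff L).of_le (by norm_num)).sub contDiff_const).contDiffAt
    · rwa [fderiv_sub_const]
    · exact Eventually.of_forall fun z => by rw [mem_dom, sub_lt_zero]

theorem closure_dom {L c d : ℝ} (h : c < d) : closure (dom L c) ⊆ dom L d := by
  have := closure_lt_subset_le (rho_continuous L) (continuous_const (y := c))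
  intro z hz
  have h1 : rho L z ≤ c := this hz
  exact lt_of_le_of_lt h1 h

end Pool.Agent.Q171.Mag
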