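import Pool.Agent.Q171.Mag.Disc
import Pool.Agent.Q171.Mag.Geo

set_option autoImplicit false

open MeasureTheory Set Filter Topology Complex Metric
open scoped ENNReal ComplexConjugate

namespace Pool.Agent.Q171.Mag

/-- the radial potential -/
noncomputable def pot (n r : ℝ) (z : ℂ) : ℂ := I * ((n : ℂ) * VV r z)

theorem pot_re (n r : ℝ) (z : ℂ) : (pot n r z).re = -(n * (VV r z).im) := by
  simp [pot]

theorem pot_im (n r : ℝ) (z : ℂ) : (pot n r z).im = n * (VV r z).re := by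
  simp [pot]

theorem pot_isPotential {n r R : ℝ} (hr : 0 < r) :
    IsPotential (2 * n / r ^ 2) (ball 0 R) (ball 0 r) (pot n r) := by
  have hVc : Continuous (VV r) := (VV_lipschitz hr).continuous
  refine ⟨?_, ⟨|n| * ((r ^ 2)⁻¹ * R), ?_⟩, ?_⟩
  · refine Continuous.measurable ?_
    unfold pot
    fun_prop
  · intro z hz
    have h1 := VV_lip hr z 0
    have h2 : VV r 0 = 0 := by simp [VV]
    rw [h2, sub_zero, sub_zero] at h1
    have h3 : ‖z‖ < R := by simpa using hz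
    unfold pot
    rw [norm_mul, norm_mul, norm_I, one_mul, norm_real, Real.norm_eq_abs]
    gcongr
    exact h1.trans (by gcongr)
  · intro φ hφ hc hs
    have h1 := VV_weak hr hφ hc
    rw [setIntegral_eq_integral_of_forall_compl_eq_zero]
    · have h2 : (fun z => (pot n r z).re * fderiv ℝ φ z I - (pot n r z).im * fderiv ℝ φ z 1) =
          fun z => -n * ((VV r z).re * fderiv ℝ φ z 1 + (VV r z).im * fderiv ℝ φ z I) := by
        funext z
        rw [pot_re, pot_im]
        ring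
      rw [h2, integral_const_mul, h1]
      ring
    · intro z hz
      have : fderiv ℝ φ z = 0 := by
        have h6 : z ∉ tsupport φ := fun h => hz (hs h)
        have h7 : z ∉ tsupport (fderiv ℝ φ) := fun h => h6 (tsupport_fderiv_subset ℝ h)
        exact image_eq_zero_of_notMem_tsupport h7
      rw [this]
      simp

/-- `(|z|² - r²)₊` -/
noncomputable def sp (r : ℝ) (z : ℂ) : ℝ := max (‖z‖ ^ 2 - r ^ 2) 0

/-- the test function -/
noncomputable def uu (r : ℝ) (m : ℕ) (z : ℂ) : ℂ := ((sp r z ^ 3 : ℝ) : ℂ) * (z * (conj z)⁻¹) ^ m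

theorem sp_nonneg (r : ℝ) (z : ℂ) : 0 ≤ sp r z := le_max_right _ _

theorem sp_near_zero {r : ℝ} (hr : 0 < r) : ∀ᶠ z in 𝓝 (0 : ℂ), sp r z = 0 := by
  have h1 : ∀ᶠ w in 𝓝 (0 : ℂ), ‖w‖ < r :=
    continuous_norm.continuousAt.eventually (gt_mem_nhds (by simpa using hr))
  filter_upwards [h1] with w hw
  have := pow_le_pow_left₀ (norm_nonneg _) hw.le 2
  exact max_eq_right (by linarith)

theorem uu_contDiff {r : ℝ} (hr : 0 < r) (m : ℕ) : ContDiff ℝ 2 (uu r m) := by
  rw [contDiff_iff_contDiffAt]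
  intro z
  by_cases hz : z = 0
  · subst hz
    have h3 : uu r m =ᶠ[𝓝 0] fun _ => 0 := by
      filter_upwards [sp_near_zero hr] with w hw
      unfold uu
      rw [hw]
      simp
    exact contDiffAt_const.congr_of_eventuallyEq h3
  · have h := contDiff_pos 2 2 le_rfl
    norm_num at h
    have h1 : ContDiff ℝ 2 fun z : ℂ => sp r z ^ 3 := by
      have h2 : ContDiff ℝ 2 fun z : ℂ => ‖z‖ ^ 2 - r ^ 2 :=
        (contDiff_id.norm_sq ℝ).sub contDiff_const
      exact h.comp h2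
    have h2 : ContDiff ℝ 2 fun z : ℂ => ((sp r z ^ 3 : ℝ) : ℂ) := ofRealCLM.contDiff.comp h1
    have h3 : ContDiffAt ℝ 2 (fun z : ℂ => z * (conj z)⁻¹) z := by
      refine contDiffAt_id.mul (ContDiffAt.inv ?_ ?_)
      · exact conjCLE.toContinuousLinearMap.contDiff.contDiffAt
      · simpa using hz
    exact h2.contDiffAt.mul (h3.pow m)

theorem ww_fderiv {z : ℂ} (hz : z ≠ 0) (m : ℕ) :
    ∃ T : ℂ →L[ℝ] ℂ, HasFDerivAt (fun z : ℂ => (z * (conj z)⁻¹) ^ m) T z ∧
      ∀ e, T e = m * (z * (conj z)⁻¹) ^ m * (e / z - conj e / conj z) := by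
  have hcz : conj z ≠ 0 := by simpa using hz
  have h1 : HasFDerivAt (fun z : ℂ => conj z) (conjCLE.toContinuousLinearMap) z :=
    conjCLE.toContinuousLinearMap.hasFDerivAt
  have h2 : HasFDerivAt (fun z : ℂ => z⁻¹) ((ContinuousLinearMap.toSpanSingleton ℂ
      (-((conj z) ^ 2)⁻¹)).restrictScalars ℝ) (conj z) :=
    (hasDerivAt_inv hcz).hasFDerivAt.restrictScalars ℝ
  have h3 : HasFDerivAt (fun z : ℂ => (conj z)⁻¹) _ z := h2.comp z h1
  have h4 : HasFDerivAt (fun z : ℂ => z * (conj z)⁻¹) _ z := (hasFDerivAt_id z).mul h3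
  refine ⟨_, h4.pow m, fun e => ?_⟩
  have key : (z * (conj z)⁻¹) * (e / z - conj e / conj z) =
      z * (-((conj z) ^ 2)⁻¹ * conj e) + (conj z)⁻¹ * e := by
    field_simp
    ring
  rcases m with _ | m
  · simp
  · simp
    rw [pow_succ]
    linear_combination (-((m : ℂ) + 1) * (z * (conj z)⁻¹) ^ m) * key

theorem uu_fderiv {r : ℝ} {z : ℂ} (hz : z ≠ 0) (m : ℕ) (e : ℂ) :
    fderiv ℝ (uu r m) z e = (6 * sp r z ^ 2 * (z.re * e.re + z.im * e.im) : ℝ) *
      (z * (conj z)⁻¹) ^ m +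
      ((sp r z ^ 3 : ℝ) : ℂ) * (m * (z * (conj z)⁻¹) ^ m * (e / z - conj e / conj z)) := by
  obtain ⟨T, hT, hTe⟩ := ww_fderiv hz m
  have hq : HasFDerivAt (fun z : ℂ => ‖z‖ ^ 2 - r ^ 2)
      ((2 * z.re) • reCLM + (2 * z.im) • imCLM) z := by
    have h3 : HasFDerivAt (fun z : ℂ => (reCLM z) ^ 2 + (imCLM z) ^ 2) _ z :=
      ((reCLM.hasFDerivAt (x := z)).pow 2).add ((imCLM.hasFDerivAt (x := z)).pow 2)
    have h4 : (fun z : ℂ => ‖z‖ ^ 2) = fun z => (reCLM z) ^ 2 + (imCLM z) ^ 2 := by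
      funext z
      simp [nsq]
    refine HasFDerivAt.sub_const _ ?_
    rw [h4]
    refine h3.congr_fderiv ?_
    ext; simp
  have h1' := (hasDerivAt_pos 1 (‖z‖ ^ 2 - r ^ 2)).comp_hasFDerivAt z hq
  have h1 : HasFDerivAt (fun z : ℂ => sp r z ^ 3) _ z := h1'
  have h2 : HasFDerivAt (fun z : ℂ => ((sp r z ^ 3 : ℝ) : ℂ)) _ z :=
    ofRealCLM.hasFDerivAt.comp z h1
  have h3 : HasFDerivAt (uu r m) _ z := h2.mul hT
  rw [h3.fderiv]
  simp [hTe, sp]
  ring

theorem uu_norm {r : ℝ} (hr : 0 < r) (m : ℕ) (z : ℂ) : ‖uu r m z‖ ^ 2 = sp r z ^ 6 := by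
  by_cases hz : z = 0
  · subst hz
    have : sp r 0 = 0 := by
      unfold sp
      rw [max_eq_right]
      simp
      positivity
    simp [uu, this]
  · unfold uu
    have hn : ‖z‖ ≠ 0 := by simpa using hz
    rw [norm_mul, norm_pow, norm_mul, norm_inv, RCLike.norm_conj, mul_inv_cancel₀ hn, one_pow,
      mul_one, norm_real, Real.norm_eq_abs, sq_abs]
    ring

theorem uu_dens {r : ℝ} (hr : 0 < r) (m : ℕ) (z : ℂ) :
    dens (pot (2 * m) r) (uu r m) z = 36 * sp r z ^ 4 * ‖z‖ ^ 2 := by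
  by_cases hz : z = 0
  · subst hz
    have h1 : sp r 0 = 0 := by
      unfold sp
      rw [max_eq_right]
      simp
      positivity
    have h3 : uu r m =ᶠ[𝓝 0] fun _ => 0 := by
      filter_upwards [sp_near_zero hr] with w hw
      unfold uu
      rw [hw]
      simp
    unfold dens
    rw [h3.fderiv_eq, h3.eq_of_nhds, h1]
    simp
  · have hcz : conj z ≠ 0 := by simpa using hz
    unfold dens
    rw [uu_fderiv hz, uu_fderiv hz, pot_re, pot_im, VV_im, VV_re]
    rcases le_total (‖z‖ ^ 2) (r ^ 2) with h | h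
    · have h1 : sp r z = 0 := max_eq_right (by linarith)
      unfold uu
      rw [h1]
      simp
    · rw [max_eq_left h]
      have hzz : (z : ℂ) * conj z = ((‖z‖ ^ 2 : ℝ) : ℂ) := by
        rw [mul_conj, normSq_eq_norm_sq]
      have hn : ((‖z‖ ^ 2 : ℝ) : ℂ) ≠ 0 := by
        rw [← hzz]
        exact mul_ne_zero hz hcz
      have hn' : ‖z‖ ≠ 0 := by simpa using hz
      have hw : ‖(z * (conj z)⁻¹) ^ m‖ = 1 := by
        rw [norm_pow, norm_mul, norm_inv, RCLike.norm_conj, mul_inv_cancel₀ hn', one_pow]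
      set w := (z * (conj z)⁻¹) ^ m with hwdef
      have e1 : (1 : ℂ) / z - conj (1 : ℂ) / conj z = -(2 * I * z.im) / ((‖z‖ ^ 2 : ℝ) : ℂ) := by
        rw [map_one, div_sub_div _ _ hz hcz, hzz]
        congr 1
        apply Complex.ext <;> simp
        ring
      have e2 : (I : ℂ) / z - conj (I : ℂ) / conj z = (2 * I * z.re) / ((‖z‖ ^ 2 : ℝ) : ℂ) := by
        rw [conj_I, div_sub_div _ _ hz hcz, hzz]
        congr 1
        apply Complex.ext <;> simp
        ring
      have f1 : -I * ((6 * sp r z ^ 2 * (z.re * (1 : ℂ).re + z.im * (1 : ℂ).im) : ℝ) * w +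
          ((sp r z ^ 3 : ℝ) : ℂ) * (m * w * ((1 : ℂ) / z - conj (1 : ℂ) / conj z))) -
          ((-(2 * m * ((‖z‖ ^ 2)⁻¹ * z.im)) : ℝ) : ℂ) * uu r m z =
          -I * ((6 * sp r z ^ 2 * z.re : ℝ) : ℂ) * w := by
        rw [e1]
        unfold uu
        rw [← hwdef]
        push_cast
        simp only [one_re, one_im, ofReal_one, ofReal_zero]
        have : ((‖z‖ : ℂ)) ≠ 0 := by exact_mod_cast hn'
        field_simp
        ring_nf
        rw [I_sq]
        ring
      have f2 : -I * ((6 * sp r z ^ 2 * (z.re * (I : ℂ).re + z.im * (I : ℂ).im) : ℝ) * w +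
          ((sp r z ^ 3 : ℝ) : ℂ) * (m * w * ((I : ℂ) / z - conj (I : ℂ) / conj z))) -
          ((2 * m * ((‖z‖ ^ 2)⁻¹ * z.re) : ℝ) : ℂ) * uu r m z =
          -I * ((6 * sp r z ^ 2 * z.im : ℝ) : ℂ) * w := by
        rw [e2]
        unfold uu
        rw [← hwdef]
        push_cast
        simp only [I_re, I_im, ofReal_one, ofReal_zero]
        have : ((‖z‖ : ℂ)) ≠ 0 := by exact_mod_cast hn'
        field_simp
        ring_nf
        rw [I_sq]
        ring
      rw [f1, f2]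
      rw [norm_mul, norm_mul, norm_mul, norm_mul, norm_neg, norm_I, hw, norm_real, norm_real,
        Real.norm_eq_abs, Real.norm_eq_abs, one_mul, mul_one, one_mul, mul_one, sq_abs, sq_abs,
        nsq]
      ring

end Pool.Agent.Q171.Mag
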