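import Pool.Agent.Q171.Mag.Defs

set_option autoImplicit false

open MeasureTheory Set Filter Topology Complex
open scoped ENNReal ComplexConjugate

namespace Pool.Agent.Q171.Mag

theorem fderiv_conj {v : ℂ → ℂ} (hv : Differentiable ℝ v) (z e : ℂ) :
    fderiv ℝ (fun z => conj (v z)) z e = conj (fderiv ℝ v z e) := by
  have h1 : HasFDerivAt (fun z => conj (v z)) (conjCLE.toContinuousLinearMap.comp (fderiv ℝ v z)) z :=
    conjCLE.toContinuousLinearMap.hasFDerivAt.comp z (hv z).hasFDerivAt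
  rw [h1.fderiv]
  simp

theorem snd_symm {w : ℂ → ℂ} (hw : ContDiff ℝ 2 w) (z e f : ℂ) :
    fderiv ℝ (fun z => fderiv ℝ w z e) z f = fderiv ℝ (fun z => fderiv ℝ w z f) z e := by
  have hd : Differentiable ℝ (fderiv ℝ w) :=
    (hw.fderiv_right (m := 1) (by norm_num)).differentiable one_ne_zero
  have h1 : ∀ e : ℂ, fderiv ℝ (fun z => fderiv ℝ w z e) z = (fderiv ℝ (fderiv ℝ w) z).flip e := by
    intro e
    have h2 := (hd z).hasFDerivAt.clm_apply (hasFDerivAt_const e z)
    rw [h2.fderiv]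
    ext x
    simp
  rw [h1, h1]
  have h3 : IsSymmSndFDerivAt ℝ w z := hw.contDiffAt.isSymmSndFDerivAt (by simp)
  simpa using (h3.eq f e)

theorem stokes {v : ℂ → ℂ} (hv : ContDiff ℝ 2 v) (hc : HasCompactSupport v) :
    ∫ z, (fderiv ℝ v z 1 * conj (fderiv ℝ v z I)).im = 0 := by
  have hvd : Differentiable ℝ v := hv.differentiable two_ne_zero
  set w : ℂ → ℂ := fun z => conj (v z) with hw
  have hwc : ContDiff ℝ 2 w := conjCLE.toContinuousLinearMap.contDiff.comp hv
  have hwcs : HasCompactSupport w := hc.comp_left (map_zero _)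
  have hdw : ∀ z e, fderiv ℝ w z e = conj (fderiv ℝ v z e) := fun z e => fderiv_conj hvd z e
  have hdvc : ∀ e : ℂ, Continuous fun z => fderiv ℝ v z e := fun e =>
    (hv.continuous_fderiv two_ne_zero).clm_apply continuous_const
  have hdwc : ∀ e : ℂ, Continuous fun z => fderiv ℝ w z e := fun e =>
    (hwc.continuous_fderiv two_ne_zero).clm_apply continuous_const
  have hdwC : ∀ e : ℂ, ContDiff ℝ 1 fun z => fderiv ℝ w z e := fun e =>
    (hwc.fderiv_right (m := 1) (by norm_num)).clm_apply contDiff_const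
  have hdvs : ∀ e : ℂ, HasCompactSupport fun z => fderiv ℝ v z e := fun e =>
    hc.fderiv_apply ℝ e
  have hparts : ∀ e f : ℂ, ∫ z, fderiv ℝ w z e * fderiv ℝ v z f =
      - ∫ z, fderiv ℝ (fun z => fderiv ℝ w z e) z f * v z := by
    intro e f
    refine integral_mul_fderiv_eq_neg_fderiv_mul_of_integrable ?_ ?_ ?_ ?_ ?_
    · refine Continuous.integrable_of_hasCompactSupport ?_ hc.mul_left
      exact (((hdwC e).continuous_fderiv one_ne_zero).clm_apply continuous_const).mul hv.continuous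
    · refine Continuous.integrable_of_hasCompactSupport ?_ (hdvs f).mul_left
      exact (hdwc e).mul (hdvc f)
    · refine Continuous.integrable_of_hasCompactSupport ?_ hc.mul_left
      exact (hdwc e).mul hv.continuous
    · exact fun x _ => ((hdwC e).differentiable one_ne_zero) x
    · exact fun x _ => hvd x
  have h1 : ∫ z, fderiv ℝ w z I * fderiv ℝ v z 1 = ∫ z, fderiv ℝ w z 1 * fderiv ℝ v z I := by
    rw [hparts, hparts]
    congr 1
    refine integral_congr_ae (Eventually.of_forall fun z => ?_)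
    show _ * _ = _ * _
    rw [snd_symm hwc]
  have h2 : ∫ z, fderiv ℝ w z 1 * fderiv ℝ v z I =
      conj (∫ z, fderiv ℝ w z I * fderiv ℝ v z 1) := by
    rw [← integral_conj]
    refine integral_congr_ae (Eventually.of_forall fun z => ?_)
    show _ * _ = conj (_ * _)
    rw [hdw, hdw, map_mul, conj_conj, mul_comm]
  have h3 : (∫ z, fderiv ℝ w z I * fderiv ℝ v z 1).im = 0 := by
    rw [h2] at h1
    have := congrArg Complex.im h1
    rw [conj_im] at this
    linarith
  have h4 : Integrable fun z => fderiv ℝ v z 1 * conj (fderiv ℝ v z I) := by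
    refine Continuous.integrable_of_hasCompactSupport ?_ (hdvs 1).mul_right
    exact (hdvc 1).mul (continuous_conj.comp (hdvc I))
  have h5 := integral_im h4
  have h6 : ∫ z, fderiv ℝ v z 1 * conj (fderiv ℝ v z I) =
      ∫ z, fderiv ℝ w z I * fderiv ℝ v z 1 := by
    refine integral_congr_ae (Eventually.of_forall fun z => ?_)
    show _ * _ = _ * _
    rw [hdw, mul_comm]
  rw [h6] at h5
  exact h5.trans h3

theorem dens_nonneg (A u : ℂ → ℂ) (z : ℂ) : 0 ≤ dens A u z := by
  unfold dens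
  positivity

theorem fderiv_normsq {v : ℂ → ℂ} (hv : Differentiable ℝ v) (z e : ℂ) :
    fderiv ℝ (fun z => ‖v z‖ ^ 2) z e = 2 * (conj (v z) * fderiv ℝ v z e).re := by
  have h1 := (hv z).hasFDerivAt.norm_sq
  rw [h1.fderiv]
  simp [Complex.inner]
  ring

theorem dens_ge {v : ℂ → ℂ} (hv : Differentiable ℝ v) (A : ℂ → ℂ) (z : ℂ) :
    ((A z).re * fderiv ℝ (fun z => ‖v z‖ ^ 2) z I - (A z).im * fderiv ℝ (fun z => ‖v z‖ ^ 2) z 1) -
      2 * (fderiv ℝ v z 1 * conj (fderiv ℝ v z I)).im ≤ dens A v z := by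
  rw [fderiv_normsq hv, fderiv_normsq hv]
  unfold dens
  generalize fderiv ℝ v z 1 = p
  generalize fderiv ℝ v z I = q
  generalize v z = w
  generalize (A z).re = a
  generalize (A z).im = c
  rw [← Complex.normSq_eq_norm_sq, ← Complex.normSq_eq_norm_sq, Complex.normSq_apply,
    Complex.normSq_apply]
  simp
  nlinarith [sq_nonneg (p.im - a * w.re + q.re + c * w.im),
    sq_nonneg (-p.re - a * w.im + q.im - c * w.re)]

theorem dens_integrable {Ω : Set ℂ} (hΩ : MeasurableSet Ω) {A v : ℂ → ℂ} (hA : Measurable A)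
    {M : ℝ} (hM : ∀ z ∈ Ω, ‖A z‖ ≤ M) (hv : ContDiff ℝ 1 v) (hc : HasCompactSupport v) :
    IntegrableOn (dens A v) Ω := by
  have hdvc : ∀ e : ℂ, Continuous fun z => fderiv ℝ v z e := fun e =>
    (hv.continuous_fderiv one_ne_zero).clm_apply continuous_const
  have hdvs : ∀ e : ℂ, HasCompactSupport fun z => fderiv ℝ v z e := fun e =>
    hc.fderiv_apply ℝ e
  have hi : ∀ g : ℂ → ℂ, Continuous g → HasCompactSupport g → Integrable fun z => ‖g z‖ ^ 2 := by
    intro g hg hgs
    refine Continuous.integrable_of_hasCompactSupport (by fun_prop) ?_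
    exact hgs.comp_left (g := fun x : ℂ => ‖x‖ ^ 2) (by simp)
  have hg := ((hi _ (hdvc 1) (hdvs 1)).const_mul 2).add
    (((hi _ (hdvc I) (hdvs I)).const_mul 2).add ((hi v hv.continuous hc).const_mul (4 * M ^ 2)))
  refine Integrable.mono' (hg.restrict (s := Ω)) ?_ ?_
  · refine Measurable.aestronglyMeasurable ?_
    unfold dens
    have hre : Measurable fun z => (((A z).re : ℝ) : ℂ) := by fun_prop
    have him : Measurable fun z => (((A z).im : ℝ) : ℂ) := by fun_prop
    have hvm := hv.continuous.measurable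
    have h1 := (hdvc 1).measurable
    have h2 := (hdvc I).measurable
    fun_prop
  · refine (ae_restrict_iff' hΩ).2 (Eventually.of_forall fun z hz => ?_)
    rw [Real.norm_of_nonneg (dens_nonneg _ _ _)]
    have hMz := hM z hz
    have hre : |(A z).re| ≤ M := (abs_re_le_norm _).trans hMz
    have him : |(A z).im| ≤ M := (abs_im_le_norm _).trans hMz
    have hM0 : 0 ≤ M := (abs_nonneg _).trans hre
    have key : ∀ (p w : ℂ) (a : ℝ), |a| ≤ M → ‖-I * p - a * w‖ ^ 2 ≤
        2 * ‖p‖ ^ 2 + 2 * M ^ 2 * ‖w‖ ^ 2 := by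
      intro p w a ha
      have h1 : ‖-I * p - a * w‖ ≤ ‖p‖ + M * ‖w‖ := by
        calc ‖-I * p - a * w‖ ≤ ‖-I * p‖ + ‖(a : ℂ) * w‖ := norm_sub_le _ _
          _ = ‖p‖ + |a| * ‖w‖ := by simp
          _ ≤ _ := by gcongr
      have h2 : ‖-I * p - a * w‖ ^ 2 ≤ (‖p‖ + M * ‖w‖) ^ 2 := by gcongr
      nlinarith [sq_nonneg (‖p‖ - M * ‖w‖)]
    have h1 := key (fderiv ℝ v z 1) (v z) _ hre
    have h2 := key (fderiv ℝ v z I) (v z) _ him
    simp only [dens, Pi.add_apply]
    linarith

/-- the magnetic field bounds the energy from below -/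
theorem magn {b : ℝ} {Ω ω : Set ℂ} {A v : ℂ → ℂ} (hΩ : MeasurableSet Ω)
    (hA : IsPotential b Ω ω A) (hv : ContDiff ℝ 2 v) (hc : HasCompactSupport v)
    (hs : tsupport v ⊆ Ω) : b * ∫ z in ω, ‖v z‖ ^ 2 ≤ ∫ z in Ω, dens A v z := by
  obtain ⟨hAm, ⟨M, hM⟩, hA⟩ := hA
  have hvd : Differentiable ℝ v := hv.differentiable two_ne_zero
  have hφc : ContDiff ℝ 2 fun z => ‖v z‖ ^ 2 := hv.norm_sq ℝ
  have hφs : HasCompactSupport fun z => ‖v z‖ ^ 2 :=
    hc.comp_left (g := fun x : ℂ => ‖x‖ ^ 2) (by simp)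
  have hφt : tsupport (fun z => ‖v z‖ ^ 2) ⊆ Ω :=
    (tsupport_comp_subset (g := fun x : ℂ => ‖x‖ ^ 2) (by simp) v).trans hs
  have h1 := hA _ (hφc.of_le (by norm_num)) hφs hφt
  rw [← h1]
  have hdvc : ∀ e : ℂ, Continuous fun z => fderiv ℝ v z e := fun e =>
    (hv.continuous_fderiv two_ne_zero).clm_apply continuous_const
  have hdvs : ∀ e : ℂ, HasCompactSupport fun z => fderiv ℝ v z e := fun e =>
    hc.fderiv_apply ℝ e
  have h4 : Integrable fun z => (fderiv ℝ v z 1 * conj (fderiv ℝ v z I)).im := by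
    refine Continuous.integrable_of_hasCompactSupport ?_ ?_
    · exact Complex.continuous_im.comp ((hdvc 1).mul (continuous_conj.comp (hdvc I)))
    · exact ((hdvs 1).mul_right (f' := fun z => conj (fderiv ℝ v z I))).comp_left
        (g := Complex.im) (by simp)
  have h5 : ∫ z in Ω, (fderiv ℝ v z 1 * conj (fderiv ℝ v z I)).im = 0 := by
    rw [setIntegral_eq_integral_of_forall_compl_eq_zero, stokes hv hc]
    intro z hz
    have : fderiv ℝ v z = 0 := by
      have h6 : z ∉ tsupport v := fun h => hz (hs h)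
      have h7 : z ∉ tsupport (fderiv ℝ v) := fun h => h6 (tsupport_fderiv_subset ℝ h)
      exact image_eq_zero_of_notMem_tsupport h7
    rw [this]
    simp
  have hdi := dens_integrable hΩ hAm hM (hv.of_le (by norm_num)) hc
  by_cases hint : IntegrableOn (fun z => (A z).re * fderiv ℝ (fun z => ‖v z‖ ^ 2) z I -
      (A z).im * fderiv ℝ (fun z => ‖v z‖ ^ 2) z 1) Ω
  · have h6 : ∫ z in Ω, (((A z).re * fderiv ℝ (fun z => ‖v z‖ ^ 2) z I -
        (A z).im * fderiv ℝ (fun z => ‖v z‖ ^ 2) z 1) -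
        2 * (fderiv ℝ v z 1 * conj (fderiv ℝ v z I)).im) ≤ ∫ z in Ω, dens A v z := by
      refine integral_mono ?_ hdi fun z => dens_ge hvd A z
      exact hint.sub ((h4.const_mul 2).restrict)
    rw [integral_sub hint ((h4.const_mul 2).restrict), integral_const_mul, h5] at h6
    linarith
  · rw [integral_undef hint]
    exact integral_nonneg fun z => dens_nonneg _ _ _

end Pool.Agent.Q171.Mag
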