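import Pool.Agent.Q171.Mag.Disc2
import Pool.Agent.Q171.Mag.Magn

set_option autoImplicit false

open MeasureTheory Set Filter Topology Complex Metric
open scoped ENNReal ComplexConjugate

namespace Pool.Agent.Q171.Mag

theorem vol_ball {r : ℝ} (hr : 0 ≤ r) : volume.real (ball (0 : ℂ) r) = Real.pi * r ^ 2 := by
  rw [Measure.real, Complex.volume_ball, ENNReal.toReal_mul, ENNReal.toReal_pow,
    ENNReal.toReal_ofReal hr]
  simp
  ring

theorem sp_continuous (r : ℝ) : Continuous (sp r) := by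
  unfold sp
  fun_prop

theorem lam_le {A u : ℂ → ℂ} {Ω : Set ℂ} (hu : ContDiffOn ℝ 2 u Ω)
    (h1 : IntegrableOn (fun z => ‖u z‖ ^ 2) Ω) (h2 : IntegrableOn (dens A u) Ω)
    (h3 : 0 < ∫ z in Ω, ‖u z‖ ^ 2) :
    lam A Ω ≤ (∫ z in Ω, dens A u z) / ∫ z in Ω, ‖u z‖ ^ 2 := by
  refine csInf_le ⟨0, ?_⟩ ⟨u, hu, h1, h2, h3, rfl⟩
  rintro _ ⟨v, _, _, _, hv, rfl⟩
  exact div_nonneg (integral_nonneg fun z => dens_nonneg _ _ _) hv.le

theorem upper {r R : ℝ} (hr : 0 < r) (hrR : r < R) (m : ℕ) :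
    lam (pot (2 * m) r) (ball 0 R) ≤ 4608 * R ^ 4 / (R ^ 2 - r ^ 2) ^ 3 := by
  set S := R ^ 2 - r ^ 2 with hS
  have hR : 0 < R := hr.trans hrR
  have hS0 : 0 < S := by
    have := pow_lt_pow_left₀ hrR hr.le two_ne_zero
    linarith
  have hcomp : ∀ f : ℂ → ℝ, Continuous f → IntegrableOn f (ball (0 : ℂ) R) := fun f hf =>
    (hf.continuousOn.integrableOn_compact (isCompact_closedBall 0 R)).mono_set ball_subset_closedBall
  have hun : (fun z => ‖uu r m z‖ ^ 2) = fun z => sp r z ^ 6 := funext fun z => uu_norm hr m z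
  have hud : dens (pot (2 * m) r) (uu r m) = fun z => 36 * sp r z ^ 4 * ‖z‖ ^ 2 :=
    funext fun z => uu_dens hr m z
  have hsc := sp_continuous r
  have i1 : IntegrableOn (fun z => sp r z ^ 6) (ball (0 : ℂ) R) := hcomp _ (by fun_prop)
  have i2 : IntegrableOn (fun z => 36 * sp r z ^ 4 * ‖z‖ ^ 2) (ball (0 : ℂ) R) :=
    hcomp _ (by fun_prop)
  have hvR := vol_ball hR.le
  have hpi := Real.pi_pos
  -- the numerator
  have hE : ∫ z in ball (0 : ℂ) R, 36 * sp r z ^ 4 * ‖z‖ ^ 2 ≤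
      36 * S ^ 4 * R ^ 2 * (Real.pi * R ^ 2) := by
    calc ∫ z in ball (0 : ℂ) R, 36 * sp r z ^ 4 * ‖z‖ ^ 2
        ≤ ∫ z in ball (0 : ℂ) R, 36 * S ^ 4 * R ^ 2 := by
          refine setIntegral_mono_on i2 (hcomp _ continuous_const) measurableSet_ball fun z hz => ?_
          have h1 : ‖z‖ < R := by simpa using hz
          have h2 : ‖z‖ ^ 2 ≤ R ^ 2 := pow_le_pow_left₀ (norm_nonneg _) h1.le 2
          have h3 : sp r z ≤ S := max_le (by linarith) hS0.le
          have h4 := sp_nonneg r z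
          gcongr
      _ = _ := by
          rw [setIntegral_const, hvR, smul_eq_mul]
          ring
  -- the denominator
  set ρ := √(r ^ 2 + S / 2) with hρ
  have hρ2 : ρ ^ 2 = r ^ 2 + S / 2 := Real.sq_sqrt (by positivity)
  have hρ0 : 0 ≤ ρ := Real.sqrt_nonneg _
  have hρR : ρ ≤ R := by
    refine le_of_sq_le_sq ?_ hR.le
    rw [hρ2]
    linarith
  have hvρ := vol_ball hρ0
  have hN : Real.pi * S ^ 7 / 128 ≤ ∫ z in ball (0 : ℂ) R, sp r z ^ 6 := by
    have h1 : volume.real (ball (0 : ℂ) R \ ball 0 ρ) = Real.pi * S / 2 := by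
      rw [measureReal_sdiff (ball_subset_ball hρR) measurableSet_ball, hvR, hvρ, hρ2]
      ring
    calc Real.pi * S ^ 7 / 128 = ∫ z in ball (0 : ℂ) R \ ball 0 ρ, (S / 2) ^ 6 := by
          rw [setIntegral_const, h1, smul_eq_mul]
          ring
      _ ≤ ∫ z in ball (0 : ℂ) R \ ball 0 ρ, sp r z ^ 6 := by
          refine setIntegral_mono_on ((hcomp _ continuous_const).mono_set sdiff_subset)
            (i1.mono_set sdiff_subset) (measurableSet_ball.diff measurableSet_ball) fun z hz => ?_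
          have h2 : ρ ≤ ‖z‖ := by simpa using hz.2
          have h3 : ρ ^ 2 ≤ ‖z‖ ^ 2 := pow_le_pow_left₀ hρ0 h2 2
          have h4 : S / 2 ≤ sp r z := le_max_of_le_left (by linarith)
          gcongr
      _ ≤ _ := by
          refine setIntegral_mono_set i1 (Eventually.of_forall fun z => ?_)
            (Eventually.of_forall sdiff_subset)
          have := sp_nonneg r z
          show 0 ≤ sp r z ^ 6
          positivity
  have hN0 : 0 < ∫ z in ball (0 : ℂ) R, sp r z ^ 6 := lt_of_lt_of_le (by positivity) hN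
  have h := lam_le (A := pot (2 * m) r) (u := uu r m) (Ω := ball (0 : ℂ) R)
    (uu_contDiff hr m).contDiffOn (by rw [hun]; exact i1) (by rw [hud]; exact i2)
    (by rw [hun]; exact hN0)
  rw [hun, hud] at h
  refine h.trans ?_
  rw [div_le_div_iff₀ hN0 (by positivity)]
  calc (∫ z in ball (0 : ℂ) R, 36 * sp r z ^ 4 * ‖z‖ ^ 2) * S ^ 3
      ≤ (36 * S ^ 4 * R ^ 2 * (Real.pi * R ^ 2)) * S ^ 3 := by gcongr
    _ = 4608 * R ^ 4 * (Real.pi * S ^ 7 / 128) := by ring
    _ ≤ _ := by gcongr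

end Pool.Agent.Q171.Mag
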