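import Pool.Agent.Q171.Mag.Geo

set_option autoImplicit false

open MeasureTheory Set Filter Topology Complex
open scoped ENNReal ComplexConjugate

namespace Pool.Agent.Q171.Mag

theorem clamp_parts {c : ℝ} (hc : 0 ≤ c) {ψ : ℝ → ℝ} (hψ : ContDiff ℝ 1 ψ)
    (hs : HasCompactSupport ψ) :
    ∫ y, max (-c) (min y c) * deriv ψ y = -∫ y in Ioo (-c) c, ψ y := by
  have hdc : Continuous (deriv ψ) := hψ.continuous_deriv le_rfl
  have hi : Integrable fun y => max (-c) (min y c) * deriv ψ y :=
    Continuous.integrable_of_hasCompactSupport (by fun_prop) hs.deriv.mul_left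
  rw [← intervalIntegral.integral_Iic_add_Ioi (b := -c) hi.integrableOn hi.integrableOn,
    ← intervalIntegral.integral_interval_add_Ioi (b := c) hi.integrableOn hi.integrableOn]
  have h1 : ∫ y in Iic (-c), max (-c) (min y c) * deriv ψ y = -c * ψ (-c) := by
    rw [← hs.integral_Iic_deriv_eq hψ (-c), ← integral_const_mul]
    refine setIntegral_congr_fun measurableSet_Iic fun y hy => ?_
    have hy' : y ≤ -c := hy
    rw [min_eq_left (by linarith), max_eq_left hy']
  have h2 : ∫ y in Ioi c, max (-c) (min y c) * deriv ψ y = c * -ψ c := by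
    rw [← hs.integral_Ioi_deriv_eq hψ c, ← integral_const_mul]
    refine setIntegral_congr_fun measurableSet_Ioi fun y hy => ?_
    have hy' : c < y := hy
    rw [min_eq_right (by linarith), max_eq_right (by linarith)]
  have h3 : ∫ y in (-c)..c, max (-c) (min y c) * deriv ψ y =
      c * ψ c - (-c) * ψ (-c) - ∫ y in (-c)..c, 1 * ψ y := by
    rw [← intervalIntegral.integral_mul_deriv_eq_deriv_mul (u := fun y => y) (u' := fun _ => 1)
      (v := ψ) (v' := deriv ψ) (a := -c) (b := c)]
    · refine intervalIntegral.integral_congr fun y hy => ?_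
      rw [uIcc_of_le (by linarith)] at hy
      rw [min_eq_left hy.2, max_eq_right hy.1]
    · exact fun x _ => hasDerivAt_id x
    · exact fun x _ => (hψ.differentiable one_ne_zero x).hasDerivAt
    · exact continuous_const.intervalIntegrable _ _
    · exact hdc.intervalIntegrable _ _
  rw [h1, h2, h3, intervalIntegral.integral_of_le (by linarith), integral_Ioc_eq_integral_Ioo]
  simp only [one_mul]
  ring

/-- Fubini for real integrals -/
theorem fub_real (g : ℂ → ℝ) (hg : Integrable g) :
    ∫ z, g z = ∫ x : ℝ, ∫ y : ℝ, g (x + y * I) := by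
  have h1 := Complex.volume_preserving_equiv_real_prod.symm
  rw [← h1.integral_comp' g]
  have h2 : Integrable (fun p : ℝ × ℝ => g (Complex.measurableEquivRealProd.symm p)) :=
    (h1.integrable_comp_emb Complex.measurableEquivRealProd.symm.measurableEmbedding).2 hg
  rw [Measure.volume_eq_prod, integral_prod _ h2]
  refine integral_congr_ae (Eventually.of_forall fun x =>
    integral_congr_ae (Eventually.of_forall fun y => ?_))
  simp only
  congr 1
  apply Complex.ext <;> simp [Complex.measurableEquivRealProd]

/-- half height of the slices of `dom L 1` -/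
noncomputable def hh (L x : ℝ) : ℝ := √(1 - gg L x)

theorem mem_dom_one {L : ℝ} (x y : ℝ) : ((x : ℂ) + y * I) ∈ dom L 1 ↔ y ∈ Ioo (-hh L x) (hh L x) := by
  rw [mem_dom]
  unfold rho hh
  simp only [add_im, ofReal_im, mul_im, ofReal_re, I_im, mul_one, I_re, mul_zero, zero_add,
    add_zero, add_re, mul_re, sub_zero, mem_Ioo]
  rw [← lt_sub_iff_add_lt, Real.sq_lt]

/-- a potential for the field `b` on `dom L 1` -/
noncomputable def potC (b L : ℝ) (z : ℂ) : ℂ :=
  ((-(b * max (-hh L z.re) (min z.im (hh L z.re))) : ℝ) : ℂ)

theorem potC_isPotential (b L c : ℝ) : IsPotential b (dom L c) (dom L 1) (potC b L) := by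
  have hgc : Continuous (gg L) := (gg_contDiff L).continuous
  have hhc : Continuous (hh L) := by
    unfold hh
    fun_prop
  have hpc : Continuous fun z : ℂ => -(b * max (-hh L z.re) (min z.im (hh L z.re))) := by
    have h1 : Continuous fun z : ℂ => hh L z.re := hhc.comp continuous_re
    exact (continuous_const.mul (h1.neg.max (continuous_im.min h1))).neg
  have hh0 : ∀ x, 0 ≤ hh L x := fun x => Real.sqrt_nonneg _
  have hh1 : ∀ x, hh L x ≤ 1 := by
    intro x
    unfold hh
    rw [Real.sqrt_le_one]
    linarith [gg_nonneg L x]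
  refine ⟨?_, ⟨|b|, ?_⟩, ?_⟩
  · exact (continuous_ofReal.comp hpc).measurable
  · intro z _
    unfold potC
    rw [norm_real, Real.norm_eq_abs, abs_neg, abs_mul]
    refine mul_le_of_le_one_right (abs_nonneg _) ?_
    rw [abs_le]
    constructor
    · exact le_max_of_le_left (by linarith [hh1 z.re])
    · exact max_le (by linarith [hh0 z.re]) ((min_le_right _ _).trans (hh1 _))
  · intro φ hφ hs ht
    have hd : Differentiable ℝ φ := hφ.differentiable one_ne_zero
    have hdc : ∀ e : ℂ, Continuous fun z => fderiv ℝ φ z e := fun e =>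
      (hφ.continuous_fderiv one_ne_zero).clm_apply continuous_const
    have hds : ∀ e : ℂ, HasCompactSupport fun z => fderiv ℝ φ z e := fun e =>
      hs.fderiv_apply ℝ e
    rw [setIntegral_eq_integral_of_forall_compl_eq_zero]
    swap
    · intro z hz
      have : fderiv ℝ φ z = 0 := by
        have h6 : z ∉ tsupport φ := fun h => hz (ht h)
        have h7 : z ∉ tsupport (fderiv ℝ φ) := fun h => h6 (tsupport_fderiv_subset ℝ h)
        exact image_eq_zero_of_notMem_tsupport h7
      rw [this]
      simp
    have e1 : (fun z => (potC b L z).re * fderiv ℝ φ z I - (potC b L z).im * fderiv ℝ φ z 1) =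
        fun z => -b * (max (-hh L z.re) (min z.im (hh L z.re)) * fderiv ℝ φ z I) := by
      funext z
      simp only [potC, ofReal_re, ofReal_im]
      ring
    have i1 : Integrable fun z : ℂ =>
        max (-hh L z.re) (min z.im (hh L z.re)) * fderiv ℝ φ z I := by
      refine Continuous.integrable_of_hasCompactSupport ?_ (hds I).mul_left
      have h1 : Continuous fun z : ℂ => hh L z.re := hhc.comp continuous_re
      exact (h1.neg.max (continuous_im.min h1)).mul (hdc I)
    have i2 : Integrable ((dom L 1).indicator φ) :=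
      (hφ.continuous.integrable_of_hasCompactSupport hs).indicator (dom_isOpen L 1).measurableSet
    rw [e1, integral_const_mul, fub_real _ i1, ← integral_indicator (dom_isOpen L 1).measurableSet,
      fub_real _ i2]
    have key : ∀ x : ℝ, ∫ y : ℝ, max (-hh L ((x : ℂ) + y * I).re)
        (min ((x : ℂ) + y * I).im (hh L ((x : ℂ) + y * I).re)) *
        fderiv ℝ φ ((x : ℂ) + y * I) I = -∫ y : ℝ, (dom L 1).indicator φ ((x : ℂ) + y * I) := by
      intro x
      set ψ : ℝ → ℝ := fun y => φ ((x : ℂ) + y * I) with hψ
      have hcurve : ∀ y : ℝ, HasDerivAt (fun y : ℝ => (x : ℂ) + y * I) I y := by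
        intro y
        have := ((Complex.ofRealCLM.hasDerivAt (x := y)).mul_const I).const_add (x : ℂ)
        simpa using this
      have hψd : ∀ y : ℝ, HasDerivAt ψ (fderiv ℝ φ ((x : ℂ) + y * I) I) y := fun y =>
        (hd _).hasFDerivAt.comp_hasDerivAt y (hcurve y)
      have hψc : ContDiff ℝ 1 ψ := by
        refine hφ.comp ?_
        exact contDiff_const.add (ofRealCLM.contDiff.mul contDiff_const)
      have hψs : HasCompactSupport ψ := by
        refine hs.comp_isClosedEmbedding (g := fun y : ℝ => (x : ℂ) + y * I) ?_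
        refine Isometry.isClosedEmbedding (Isometry.of_dist_eq fun y y' => ?_)
        rw [dist_eq_norm, dist_eq_norm]
        have : (x : ℂ) + y * I - (x + y' * I) = ((y - y' : ℝ) : ℂ) * I := by push_cast; ring
        rw [this, norm_mul, norm_I, mul_one, norm_real]
      have h1 := clamp_parts (hh0 x) hψc hψs
      have h2 : ∀ y : ℝ, deriv ψ y = fderiv ℝ φ ((x : ℂ) + y * I) I := fun y => (hψd y).deriv
      simp only [h2] at h1
      have h3 : ∫ y : ℝ, (dom L 1).indicator φ ((x : ℂ) + y * I) =
          ∫ y in Ioo (-hh L x) (hh L x), ψ y := by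
        rw [← integral_indicator measurableSet_Ioo]
        refine integral_congr_ae (Eventually.of_forall fun y => ?_)
        simp only
        by_cases hy : y ∈ Ioo (-hh L x) (hh L x)
        · rw [Set.indicator_of_mem hy, Set.indicator_of_mem ((mem_dom_one x y).2 hy)]
        · rw [Set.indicator_of_notMem hy,
            Set.indicator_of_notMem (fun h => hy ((mem_dom_one x y).1 h))]
      rw [h3, ← h1]
      refine integral_congr_ae (Eventually.of_forall fun y => ?_)
      simp
    have e2 : ∫ x : ℝ, ∫ y : ℝ, max (-hh L ((x : ℂ) + y * I).re)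
        (min ((x : ℂ) + y * I).im (hh L ((x : ℂ) + y * I).re)) *
        fderiv ℝ φ ((x : ℂ) + y * I) I =
        ∫ x : ℝ, -∫ y : ℝ, (dom L 1).indicator φ ((x : ℂ) + y * I) :=
      integral_congr_ae (Eventually.of_forall key)
    rw [e2, integral_neg]
    ring

end Pool.Agent.Q171.Mag
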