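import Pool.Agent.Q171.Mag.Plane
import Pool.Agent.Q171.Mag.Magn
import Pool.Agent.Q171.Mag.Geo

set_option autoImplicit false

open MeasureTheory Set Filter Topology Complex
open scoped ENNReal ComplexConjugate

namespace Pool.Agent.Q171.Mag

def mid (L : ℝ) : Set ℂ := {z | |z.re| < L ∧ |z.im| < 2}
def capR (L : ℝ) : Set ℂ := {z | z ∈ dom L 4 ∧ L - 1 < z.re}
def capL (L : ℝ) : Set ℂ := {z | z ∈ dom L 4 ∧ z.re < -L + 1}
def pR (L : ℝ) : Set ℂ := {z | L - 1 < z.re ∧ z.re < L ∧ |z.im| < 2}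
def pL (L : ℝ) : Set ℂ := {z | -L < z.re ∧ z.re < -L + 1 ∧ |z.im| < 2}
def core (L : ℝ) : Set ℂ := {z | |z.re| < L ∧ |z.im| < 1 / 2}

theorem abs_im_lt {L : ℝ} {z : ℂ} (hz : z ∈ dom L 4) : |z.im| < 2 :=
  abs_lt_of_sq_lt_sq (by linarith [im_sq_lt hz]) (by norm_num)

theorem abs_re_lt {L : ℝ} {z : ℂ} (hz : z ∈ dom L 4) : |z.re| < L + 2 :=
  re_lt (by norm_num) (dom_mono (by norm_num) hz)

theorem flat_mem {L : ℝ} {z : ℂ} (h1 : |z.re| ≤ L) (h2 : |z.im| < 2) : z ∈ dom L 4 := by
  rw [mem_dom]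
  unfold rho
  rw [gg_zero h1]
  have := abs_lt.1 h2
  nlinarith

theorem mid_open (L : ℝ) : IsOpen (mid L) := by
  exact (isOpen_lt continuous_re.abs continuous_const).inter
    (isOpen_lt continuous_im.abs continuous_const)

theorem core_open (L : ℝ) : IsOpen (core L) := by
  exact (isOpen_lt continuous_re.abs continuous_const).inter
    (isOpen_lt continuous_im.abs continuous_const)

theorem pR_open (L : ℝ) : IsOpen (pR L) := by
  exact (isOpen_lt continuous_const continuous_re).inter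
    ((isOpen_lt continuous_re continuous_const).inter (isOpen_lt continuous_im.abs continuous_const))

theorem pL_open (L : ℝ) : IsOpen (pL L) := by
  exact (isOpen_lt continuous_const continuous_re).inter
    ((isOpen_lt continuous_re continuous_const).inter (isOpen_lt continuous_im.abs continuous_const))

theorem capR_open (L : ℝ) : IsOpen (capR L) :=
  (dom_isOpen L 4).inter (isOpen_lt continuous_const continuous_re)

theorem capL_open (L : ℝ) : IsOpen (capL L) :=
  (dom_isOpen L 4).inter (isOpen_lt continuous_re continuous_const)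

theorem capR_convex (L : ℝ) : Convex ℝ (capR L) := by
  refine (dom_convex L 4).inter ?_
  exact convex_halfSpace_gt (f := fun z : ℂ => z.re) ⟨by simp, by simp⟩ _

theorem capL_convex (L : ℝ) : Convex ℝ (capL L) := by
  refine (dom_convex L 4).inter ?_
  exact convex_halfSpace_lt (f := fun z : ℂ => z.re) ⟨by simp, by simp⟩ _

theorem mid_convex (L : ℝ) : Convex ℝ (mid L) := by
  intro x hx y hy a b ha hb hab
  have h1 := abs_lt.1 hx.1
  have h2 := abs_lt.1 hx.2
  have h3 := abs_lt.1 hy.1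
  have h4 := abs_lt.1 hy.2
  have key : ∀ p q M : ℝ, |p| < M → |q| < M → |a * p + b * q| < M := by
    intro p q M hp hq
    have h5 : |a * p + b * q| ≤ a * |p| + b * |q| := by
      refine (abs_add_le _ _).trans ?_
      rw [abs_mul, abs_mul, abs_of_nonneg ha, abs_of_nonneg hb]
    rcases eq_or_lt_of_le ha with h0 | h0
    · have hb1 : b = 1 := by linarith
      rw [← h0, hb1]
      simpa using hq
    · have hb1 : b = 1 - a := by linarith
      have h6 := mul_lt_mul_of_pos_left hp h0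
      have h7 := mul_le_mul_of_nonneg_left hq.le hb
      have h8 : a * M + b * M = M := by rw [← add_mul, hab, one_mul]
      linarith
  constructor
  · have := key _ _ _ hx.1 hy.1
    simpa using this
  · have := key _ _ _ hx.2 hy.2
    simpa using this

variable {L : ℝ} {u : ℂ → ℂ} {A : ℂ → ℂ}

theorem ineq_capR (hL : 1 ≤ L) (hu : ContDiffOn ℝ 1 u (dom L 4)) (hA : Measurable A) :
    ∫⁻ z in capR L, ‖u z‖ₑ ^ 2 ≤ 6 * (∫⁻ z in pR L, ‖u z‖ₑ ^ 2) +
      18 * ∫⁻ z in capR L, ‖fderiv ℝ u z 1 - I * (A z).re * u z‖ₑ ^ 2 := by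
  have h := region 1 I fub_h (capR_open L) (capR_convex L) (γ := L - 1) (ℓ := 3) (by norm_num)
    ?_ ?_ (hu.mono fun z hz => hz.1) (a := fun z => (A z).re) (by fun_prop)
    (pR_open L).measurableSet ?_ ?_
  · norm_num at h
    exact h
  · rintro t ⟨s, hs⟩ s' hs'
    have h1 := abs_im_lt hs.1
    simp at h1
    have hs1 := hs'.1
    have hs2 := hs'.2
    refine ⟨flat_mem ?_ (by simpa using h1), by simpa using hs'.1⟩
    simp
    rw [abs_le]
    constructor <;> linarith
  · intro t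
    calc volume {s : ℝ | (s : ℂ) * 1 + t * I ∈ capR L} ≤ volume (Ioo (L - 1) (L + 2)) := by
          refine measure_mono fun s hs => ?_
          have h1 := abs_lt.1 (abs_re_lt hs.1)
          have h2 := hs.2
          simp at h1 h2
          exact ⟨by linarith, by linarith⟩
      _ = ENNReal.ofReal 3 := by
          rw [Real.volume_Ioo]
          congr 1
          ring
  · intro z hz
    have h1 := hz.1
    have h2 := hz.2.1
    exact ⟨flat_mem (abs_le.2 ⟨by linarith, by linarith⟩) hz.2.2, hz.1⟩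
  · intro s t hs hst
    have h1 := abs_im_lt hst.1
    have hs1 := hs.1
    have hs2 := hs.2
    simp at h1
    refine ⟨?_, ?_, ?_⟩
    · simpa using hs1
    · simp; linarith
    · simpa using h1

theorem ineq_capL (hL : 1 ≤ L) (hu : ContDiffOn ℝ 1 u (dom L 4)) (hA : Measurable A) :
    ∫⁻ z in capL L, ‖u z‖ₑ ^ 2 ≤ 6 * (∫⁻ z in pL L, ‖u z‖ₑ ^ 2) +
      18 * ∫⁻ z in capL L, ‖fderiv ℝ u z 1 - I * (A z).re * u z‖ₑ ^ 2 := by
  have h := region 1 I fub_h (capL_open L) (capL_convex L) (γ := -L) (ℓ := 3) (by norm_num)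
    ?_ ?_ (hu.mono fun z hz => hz.1) (a := fun z => (A z).re) (by fun_prop)
    (pL_open L).measurableSet ?_ ?_
  · norm_num at h
    exact h
  · rintro t ⟨s, hs⟩ s' hs'
    have h1 := abs_im_lt hs.1
    simp at h1
    have hs1 := hs'.1
    have hs2 := hs'.2
    refine ⟨flat_mem ?_ (by simpa using h1), by simpa using hs'.2⟩
    simp
    rw [abs_le]
    constructor <;> linarith
  · intro t
    calc volume {s : ℝ | (s : ℂ) * 1 + t * I ∈ capL L} ≤ volume (Ioo (-L - 2) (-L + 1)) := by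
          refine measure_mono fun s hs => ?_
          have h1 := abs_lt.1 (abs_re_lt hs.1)
          have h2 := hs.2
          simp at h1 h2
          exact ⟨by linarith, by linarith⟩
      _ = ENNReal.ofReal 3 := by
          rw [Real.volume_Ioo]
          congr 1
          ring
  · intro z hz
    have h1 := hz.1
    have h2 := hz.2.1
    exact ⟨flat_mem (abs_le.2 ⟨by linarith, by linarith⟩) hz.2.2, hz.2.1⟩
  · intro s t hs hst
    have h1 := abs_im_lt hst.1
    have hs1 := hs.1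
    have hs2 := hs.2
    simp at h1
    refine ⟨?_, ?_, ?_⟩
    · simpa using hs1
    · simpa using hs2
    · simpa using h1

theorem mid_sub : mid L ⊆ dom L 4 := fun _ hz => flat_mem hz.1.le hz.2

theorem ineq_mid (hu : ContDiffOn ℝ 1 u (dom L 4)) (hA : Measurable A) :
    ∫⁻ z in mid L, ‖u z‖ₑ ^ 2 ≤ 8 * (∫⁻ z in core L, ‖u z‖ₑ ^ 2) +
      32 * ∫⁻ z in mid L, ‖fderiv ℝ u z I - I * (A z).im * u z‖ₑ ^ 2 := by
  have h := region I 1 fub_v (mid_open L) (mid_convex L) (γ := -1 / 2) (ℓ := 4) (by norm_num)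
    ?_ ?_ (hu.mono mid_sub) (a := fun z => (A z).im) (by fun_prop)
    (core_open L).measurableSet ?_ ?_
  · norm_num at h
    exact h
  · rintro t ⟨s, hs⟩ s' hs'
    have h1 := hs.1
    simp at h1
    have hs1 := hs'.1
    have hs2 := hs'.2
    refine ⟨by simpa using h1, ?_⟩
    simp
    rw [abs_lt]
    constructor <;> linarith
  · intro t
    calc volume {s : ℝ | (s : ℂ) * I + t * 1 ∈ mid L} ≤ volume (Ioo (-2 : ℝ) 2) := by
          refine measure_mono fun s hs => ?_
          have h1 := abs_lt.1 hs.2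
          simp at h1
          exact ⟨by linarith, by linarith⟩
      _ = ENNReal.ofReal 4 := by
          rw [Real.volume_Ioo]
          congr 1
          ring
  · intro z hz
    exact ⟨hz.1, hz.2.trans (by norm_num)⟩
  · intro s t hs hst
    have h1 := hst.1
    simp at h1
    have hs1 := hs.1
    have hs2 := hs.2
    refine ⟨by simpa using h1, ?_⟩
    simp
    rw [abs_lt]
    constructor <;> linarith

theorem dens_enorm (A u : ℂ → ℂ) (z : ℂ) : ENNReal.ofReal (dens A u z) =
    ‖fderiv ℝ u z 1 - I * (A z).re * u z‖ₑ ^ 2 + ‖fderiv ℝ u z I - I * (A z).im * u z‖ₑ ^ 2 := by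
  have h1 : ∀ (p w : ℂ) (a : ℝ), ‖-I * p - a * w‖ = ‖p - I * a * w‖ := by
    intro p w a
    have : p - I * a * w = I * (-I * p - a * w) := by
      linear_combination p * I_mul_I
    rw [this, norm_mul, norm_I, one_mul]
  unfold dens
  rw [h1, h1, ENNReal.ofReal_add (by positivity) (by positivity), ENNReal.ofReal_pow (norm_nonneg _),
    ENNReal.ofReal_pow (norm_nonneg _), ofReal_norm, ofReal_norm]

theorem cover : dom L 4 ⊆ mid L ∪ (capR L ∪ capL L) := by
  intro z hz
  by_cases h1 : L - 1 < z.re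
  · exact Or.inr (Or.inl ⟨hz, h1⟩)
  · by_cases h2 : z.re < -L + 1
    · exact Or.inr (Or.inr ⟨hz, h2⟩)
    · push Not at h1 h2
      exact Or.inl ⟨abs_lt.2 ⟨by linarith, by linarith⟩, abs_im_lt hz⟩

theorem lower_enn (hL : 1 ≤ L) (hu : ContDiffOn ℝ 1 u (dom L 4)) (hA : Measurable A) :
    ∫⁻ z in dom L 4, ‖u z‖ₑ ^ 2 ≤ 104 * (∫⁻ z in core L, ‖u z‖ₑ ^ 2) +
      452 * ∫⁻ z in dom L 4, ENNReal.ofReal (dens A u z) := by
  set E := ∫⁻ z in dom L 4, ENNReal.ofReal (dens A u z) with hE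
  set q := ∫⁻ z in core L, ‖u z‖ₑ ^ 2 with hq
  set m := ∫⁻ z in mid L, ‖u z‖ₑ ^ 2 with hm
  have e1 : ∀ G : Set ℂ, G ⊆ dom L 4 →
      ∫⁻ z in G, ‖fderiv ℝ u z 1 - I * (A z).re * u z‖ₑ ^ 2 ≤ E := by
    intro G hG
    refine (lintegral_mono_set hG).trans (lintegral_mono fun z => ?_)
    rw [dens_enorm]
    exact le_self_add
  have e2 : ∀ G : Set ℂ, G ⊆ dom L 4 →
      ∫⁻ z in G, ‖fderiv ℝ u z I - I * (A z).im * u z‖ₑ ^ 2 ≤ E := by
    intro G hG
    refine (lintegral_mono_set hG).trans (lintegral_mono fun z => ?_)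
    rw [dens_enorm]
    exact le_add_self
  have h1 : m ≤ 8 * q + 32 * E := (ineq_mid hu hA).trans (by gcongr; exact e2 _ mid_sub)
  have h2 : ∫⁻ z in capR L, ‖u z‖ₑ ^ 2 ≤ 6 * m + 18 * E := by
    refine (ineq_capR hL hu hA).trans ?_
    gcongr
    · refine lintegral_mono_set fun z hz => ⟨?_, hz.2.2⟩
      have h3 := hz.1
      have h4 := hz.2.1
      exact abs_lt.2 ⟨by linarith, by linarith⟩
    · exact e1 _ fun z hz => hz.1
  have h3 : ∫⁻ z in capL L, ‖u z‖ₑ ^ 2 ≤ 6 * m + 18 * E := by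
    refine (ineq_capL hL hu hA).trans ?_
    gcongr
    · refine lintegral_mono_set fun z hz => ⟨?_, hz.2.2⟩
      have h3 := hz.1
      have h4 := hz.2.1
      exact abs_lt.2 ⟨by linarith, by linarith⟩
    · exact e1 _ fun z hz => hz.1
  calc ∫⁻ z in dom L 4, ‖u z‖ₑ ^ 2 ≤ ∫⁻ z in mid L ∪ (capR L ∪ capL L), ‖u z‖ₑ ^ 2 :=
        lintegral_mono_set cover
    _ ≤ m + ((∫⁻ z in capR L, ‖u z‖ₑ ^ 2) + ∫⁻ z in capL L, ‖u z‖ₑ ^ 2) := by
        refine (lintegral_union_le _ _ _).trans ?_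
        gcongr
        exact lintegral_union_le _ _ _
    _ ≤ m + ((6 * m + 18 * E) + (6 * m + 18 * E)) := by gcongr
    _ = 13 * m + 36 * E := by ring
    _ ≤ 13 * (8 * q + 32 * E) + 36 * E := by gcongr
    _ = _ := by ring

/-- real version -/
theorem lower_real (hL : 1 ≤ L) (hu : ContDiffOn ℝ 1 u (dom L 4)) (hA : Measurable A)
    (hN : IntegrableOn (fun z => ‖u z‖ ^ 2) (dom L 4)) (hE : IntegrableOn (dens A u) (dom L 4)) :
    ∫ z in dom L 4, ‖u z‖ ^ 2 ≤ 104 * (∫ z in core L, ‖u z‖ ^ 2) +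
      452 * ∫ z in dom L 4, dens A u z := by
  have hcs : core L ⊆ dom L 4 := fun z hz => mid_sub ⟨hz.1, hz.2.trans (by norm_num)⟩
  have h := lower_enn hL hu hA
  have hconv : ∀ S : Set ℂ, IntegrableOn (fun z => ‖u z‖ ^ 2) S →
      ∫⁻ z in S, ‖u z‖ₑ ^ 2 = ENNReal.ofReal (∫ z in S, ‖u z‖ ^ 2) := by
    intro S hS
    rw [ofReal_integral_eq_lintegral_ofReal hS (Eventually.of_forall fun z => by positivity)]
    refine lintegral_congr fun z => ?_
    rw [ENNReal.ofReal_pow (norm_nonneg _), ofReal_norm]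
  rw [hconv _ hN, hconv _ (hN.mono_set hcs),
    ← ofReal_integral_eq_lintegral_ofReal hE (Eventually.of_forall fun z => dens_nonneg A u z)] at h
  have hq0 : 0 ≤ ∫ z in core L, ‖u z‖ ^ 2 := integral_nonneg fun z => by positivity
  have hE0 : 0 ≤ ∫ z in dom L 4, dens A u z := integral_nonneg fun z => dens_nonneg A u z
  rw [← ENNReal.ofReal_ofNat 104, ← ENNReal.ofReal_ofNat 452, ← ENNReal.ofReal_mul (by norm_num),
    ← ENNReal.ofReal_mul (by norm_num), ← ENNReal.ofReal_add (by positivity) (by positivity)] at h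
  exact (ENNReal.ofReal_le_ofReal_iff (by positivity)).1 h

end Pool.Agent.Q171.Mag
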