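import Pool.Agent.Q171.Mag.Slice
import Pool.Agent.Q171.Mag.Defs

set_option autoImplicit false

open MeasureTheory Set Filter Topology Complex
open scoped ENNReal

namespace Pool.Agent.Q171.Mag

/-- Fubini, inner integral in the vertical direction -/
theorem fub_v (g : ℂ → ℝ≥0∞) (hg : Measurable g) :
    ∫⁻ z, g z = ∫⁻ t : ℝ, ∫⁻ s : ℝ, g (s * I + t * 1) := by
  have h1 := Complex.volume_preserving_equiv_real_prod.symm
  rw [← h1.lintegral_comp hg]
  rw [Measure.volume_eq_prod, lintegral_prod _ (by fun_prop)]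
  refine lintegral_congr fun t => lintegral_congr fun s => ?_
  congr 1
  apply Complex.ext <;> simp [Complex.measurableEquivRealProd]

/-- Fubini, inner integral in the horizontal direction -/
theorem fub_h (g : ℂ → ℝ≥0∞) (hg : Measurable g) :
    ∫⁻ z, g z = ∫⁻ t : ℝ, ∫⁻ s : ℝ, g (s * 1 + t * I) := by
  have h1 := Complex.volume_preserving_equiv_real_prod.symm
  rw [← h1.lintegral_comp hg]
  rw [Measure.volume_eq_prod, lintegral_prod_symm _ (by fun_prop)]
  refine lintegral_congr fun t => lintegral_congr fun s => ?_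
  congr 1
  apply Complex.ext <;> simp [Complex.measurableEquivRealProd]

theorem region (e f : ℂ)
    (hF : ∀ g : ℂ → ℝ≥0∞, Measurable g →
      ∫⁻ z, g z = ∫⁻ t : ℝ, ∫⁻ s : ℝ, g (s * e + t * f))
    {G : Set ℂ} (hGo : IsOpen G) (hGc : Convex ℝ G) {γ ℓ : ℝ} (hℓ0 : 0 ≤ ℓ)
    (hJ : ∀ t : ℝ, (∃ s : ℝ, (s : ℂ) * e + t * f ∈ G) →
      ∀ s : ℝ, s ∈ Ioo γ (γ + 1) → (s : ℂ) * e + t * f ∈ G)
    (hvol : ∀ t : ℝ, volume {s : ℝ | (s : ℂ) * e + t * f ∈ G} ≤ ENNReal.ofReal ℓ)
    {u : ℂ → ℂ} (hu : ContDiffOn ℝ 1 u G) {a : ℂ → ℝ} (ha : Measurable a)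
    {P : Set ℂ} (hP : MeasurableSet P) (hPG : P ⊆ G)
    (hPJ : ∀ s t : ℝ, s ∈ Ioo γ (γ + 1) → (s : ℂ) * e + t * f ∈ G → (s : ℂ) * e + t * f ∈ P) :
    ∫⁻ z in G, ‖u z‖ₑ ^ 2 ≤ ENNReal.ofReal (2 * ℓ) * (∫⁻ z in P, ‖u z‖ₑ ^ 2) +
      ENNReal.ofReal (2 * ℓ ^ 2) * ∫⁻ z in G, ‖fderiv ℝ u z e - I * a z * u z‖ₑ ^ 2 := by
  classical
  have hGm : MeasurableSet G := hGo.measurableSet
  have hcont : ContinuousOn u G := hu.continuousOn
  set U : ℂ → ℂ := G.indicator u with hU
  have hUm : Measurable U := by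
    have h1 := ContinuousOn.measurable_piecewise (s := G) (f := u) (g := 0) hcont
      continuousOn_const hGm
    rwa [Set.piecewise_eq_indicator] at h1
  have hUG : ∀ z ∈ G, U z = u z := fun z hz => Set.indicator_of_mem hz u
  set g1 : ℂ → ℝ≥0∞ := G.indicator fun z => ‖u z‖ₑ ^ 2 with hg1
  set g2 : ℂ → ℝ≥0∞ := P.indicator fun z => ‖u z‖ₑ ^ 2 with hg2
  set g3 : ℂ → ℝ≥0∞ := G.indicator fun z => ‖fderiv ℝ u z e - I * a z * u z‖ₑ ^ 2 with hg3
  have m1 : Measurable g1 := by
    have : g1 = G.indicator fun z => ‖U z‖ₑ ^ 2 := by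
      rw [hg1]
      exact Set.indicator_congr fun z hz => by rw [hUG z hz]
    rw [this]
    exact (hUm.enorm.pow_const 2).indicator hGm
  have m2 : Measurable g2 := by
    have : g2 = P.indicator fun z => ‖U z‖ₑ ^ 2 := by
      rw [hg2]
      exact Set.indicator_congr fun z hz => by rw [hUG z (hPG hz)]
    rw [this]
    exact (hUm.enorm.pow_const 2).indicator hP
  have m3 : Measurable g3 := by
    have : g3 = G.indicator fun z => ‖fderiv ℝ u z e - I * a z * U z‖ₑ ^ 2 := by
      rw [hg3]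
      exact Set.indicator_congr fun z hz => by rw [hUG z hz]
    rw [this]
    refine Measurable.indicator ?_ hGm
    refine Measurable.pow_const ?_ 2
    refine Measurable.enorm ?_
    refine (measurable_fderiv_apply_const ℝ u e).sub ?_
    exact ((Complex.measurable_ofReal.comp ha).const_mul I).mul hUm
  rw [← lintegral_indicator hGm, ← lintegral_indicator hP, ← lintegral_indicator hGm]
  rw [← hg1, ← hg2, ← hg3, hF g1 m1, hF g2 m2, hF g3 m3]
  have hdu : ContinuousOn (fderiv ℝ u) G := hu.continuousOn_fderiv_of_isOpen hGo le_rfl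
  have hcurve : ∀ t : ℝ, Continuous fun s : ℝ => (s : ℂ) * e + t * f := fun t => by fun_prop
  have key : ∀ t : ℝ, ∫⁻ s : ℝ, g1 (s * e + t * f) ≤
      ENNReal.ofReal (2 * ℓ) * (∫⁻ s : ℝ, g2 (s * e + t * f)) +
      ENNReal.ofReal (2 * ℓ ^ 2) * ∫⁻ s : ℝ, g3 (s * e + t * f) := by
    intro t
    set S : Set ℝ := {s : ℝ | (s : ℂ) * e + t * f ∈ G} with hS
    have hSo : IsOpen S := hGo.preimage (hcurve t)
    have hSc : Convex ℝ S := by
      intro x hx y hy α β hα hβ hαβ
      have := hGc hx hy hα hβ hαβ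
      simp only [hS, Set.mem_ofPred_eq]
      convert this using 1
      simp only [real_smul, smul_eq_mul]
      push_cast
      have h2 : (α : ℂ) + β = 1 := by exact_mod_cast hαβ
      linear_combination (-(t : ℂ) * f) * h2
    have e1 : ∫⁻ s : ℝ, g1 (s * e + t * f) = ∫⁻ s in S, ‖u (s * e + t * f)‖ₑ ^ 2 := by
      rw [← lintegral_indicator hSo.measurableSet]
      refine lintegral_congr fun s => ?_
      by_cases hs : s ∈ S
      · have hs' : (s : ℂ) * e + t * f ∈ G := hs
        rw [Set.indicator_of_mem hs, hg1, Set.indicator_of_mem hs']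
      · have hs' : (s : ℂ) * e + t * f ∉ G := hs
        rw [Set.indicator_of_notMem hs, hg1, Set.indicator_of_notMem hs']
    have e3 : ∫⁻ s : ℝ, g3 (s * e + t * f) = ∫⁻ s in S,
        ‖fderiv ℝ u (s * e + t * f) e - I * a (s * e + t * f) * u (s * e + t * f)‖ₑ ^ 2 := by
      rw [← lintegral_indicator hSo.measurableSet]
      refine lintegral_congr fun s => ?_
      by_cases hs : s ∈ S
      · have hs' : (s : ℂ) * e + t * f ∈ G := hs
        rw [Set.indicator_of_mem hs, hg3, Set.indicator_of_mem hs']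
      · have hs' : (s : ℂ) * e + t * f ∉ G := hs
        rw [Set.indicator_of_notMem hs, hg3, Set.indicator_of_notMem hs']
    rcases S.eq_empty_or_nonempty with hSe | ⟨s₀, hs₀⟩
    · rw [e1, hSe]
      simp
    · have hJt := hJ t ⟨s₀, hs₀⟩
      have e2 : ∫⁻ s in Ioo γ (γ + 1), ‖u (s * e + t * f)‖ₑ ^ 2 ≤
          ∫⁻ s : ℝ, g2 (s * e + t * f) := by
        rw [← lintegral_indicator measurableSet_Ioo]
        refine lintegral_mono fun s => ?_
        by_cases hs : s ∈ Ioo γ (γ + 1)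
        · have hs' := hPJ s t hs (hJt s hs)
          rw [Set.indicator_of_mem hs, hg2, Set.indicator_of_mem hs']
        · rw [Set.indicator_of_notMem hs]
          exact zero_le
      rw [e1, e3]
      refine le_trans (slice (a := fun s => a (s * e + t * f)) hSc.ordConnected hSo.measurableSet
        (h := fun s => u (s * e + t * f)) (h' := fun s => fderiv ℝ u (s * e + t * f) e)
        (γ := γ) (ℓ := ℓ) ?_ ?_ ?_ ?_ (hvol t) hℓ0) ?_
      · intro τ hτ
        have h1 : DifferentiableAt ℝ u (τ * e + t * f) :=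
          (hu.differentiableOn one_ne_zero).differentiableAt (hGo.mem_nhds hτ)
        have h2 : HasDerivAt (fun s : ℝ => (s : ℂ) * e + t * f) e τ := by
          have := ((Complex.ofRealCLM.hasDerivAt (x := τ)).mul_const e).add_const ((t : ℂ) * f)
          simpa using this
        exact h1.hasFDerivAt.comp_hasDerivAt τ h2
      · have h1 : ContinuousOn (fun s : ℝ => fderiv ℝ u (s * e + t * f)) S :=
          hdu.comp (hcurve t).continuousOn fun s hs => hs
        exact h1.clm_apply continuousOn_const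
      · exact (ha.comp (hcurve t).measurable).aemeasurable
      · exact fun s hs => hJt s hs
      · gcongr
  have mm : ∀ g : ℂ → ℝ≥0∞, Measurable g → Measurable fun t : ℝ => ∫⁻ s : ℝ, g (s * e + t * f) := by
    intro g hg
    have : Measurable fun p : ℝ × ℝ => g (p.2 * e + p.1 * f) := by
      refine hg.comp (Continuous.measurable ?_)
      fun_prop
    exact this.lintegral_prod_right'
  calc ∫⁻ t : ℝ, ∫⁻ s : ℝ, g1 (s * e + t * f)
      ≤ ∫⁻ t : ℝ, (ENNReal.ofReal (2 * ℓ) * (∫⁻ s : ℝ, g2 (s * e + t * f)) +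
      ENNReal.ofReal (2 * ℓ ^ 2) * ∫⁻ s : ℝ, g3 (s * e + t * f)) := lintegral_mono key
    _ = _ := by
        rw [lintegral_add_left ((mm g2 m2).const_mul _), lintegral_const_mul _ (mm g2 m2),
          lintegral_const_mul _ (mm g3 m3)]

end Pool.Agent.Q171.Mag
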