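import Mathlib

/-!
One-dimensional inequalities for magnetic derivatives.
-/

set_option autoImplicit false

open MeasureTheory Set Filter Topology Complex
open scoped ENNReal

namespace Pool.Agent.Q171.Mag

/-- pointwise inequality along an interval -/
theorem slice_pt {S : Set ℝ} (hSO : S.OrdConnected) {h h' : ℝ → ℂ} {a : ℝ → ℝ}
    (hd : ∀ τ ∈ S, HasDerivAt h (h' τ) τ) (hc : ContinuousOn h' S)
    {s t : ℝ} (hs : s ∈ S) (ht : t ∈ S) :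
    ‖h s‖ₑ ≤ ‖h t‖ₑ + ∫⁻ τ in S, ‖h' τ - I * a τ * h τ‖ₑ := by
  refine ENNReal.le_of_forall_pos_le_add fun δ hδ _ => ?_
  have hδ' : (0 : ℝ) < δ := hδ
  set f : ℝ → ℝ := fun τ => √(‖h τ‖ ^ 2 + (δ : ℝ) ^ 2) with hf
  have hpos : ∀ τ, 0 < ‖h τ‖ ^ 2 + (δ : ℝ) ^ 2 := fun τ => by positivity
  have hfpos : ∀ τ, 0 < f τ := fun τ => Real.sqrt_pos.2 (hpos τ)
  have hsub : uIcc t s ⊆ S := hSO.uIcc_subset ht hs
  have hfd : ∀ τ ∈ S, HasDerivAt f (inner ℝ (h τ) (h' τ) / f τ) τ := by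
    intro τ hτ
    have h1 : HasDerivAt (fun τ => ‖h τ‖ ^ 2 + (δ : ℝ) ^ 2) (2 * inner ℝ (h τ) (h' τ)) τ :=
      ((hd τ hτ).norm_sq).add_const _
    have h2 := h1.sqrt (hpos τ).ne'
    convert h2 using 1
    have := (hfpos τ).ne'
    simp only [hf] at this ⊢
    field_simp
  have hhc : ContinuousOn h (S) := fun τ hτ => (hd τ hτ).continuousAt.continuousWithinAt
  have hfc : ContinuousOn f (S) := fun τ hτ => (hfd τ hτ).continuousAt.continuousWithinAt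
  have hf'c : ContinuousOn (fun τ => inner ℝ (h τ) (h' τ) / f τ) (uIcc t s) := by
    refine ContinuousOn.mono ?_ hsub
    exact (hhc.inner hc).div hfc fun τ _ => (hfpos τ).ne'
  have hint : ∫ τ in t..s, inner ℝ (h τ) (h' τ) / f τ = f s - f t :=
    intervalIntegral.integral_eq_sub_of_hasDerivAt (fun τ hτ => hfd τ (hsub hτ))
      hf'c.intervalIntegrable
  have hle : ∀ τ, ‖inner ℝ (h τ) (h' τ) / f τ‖ₑ ≤ ‖h' τ - I * a τ * h τ‖ₑ := by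
    intro τ
    rw [enorm_le_iff_norm_le]
    have h1 : inner ℝ (h τ) (h' τ) = inner ℝ (h τ) (h' τ - I * a τ * h τ) := by
      rw [inner_sub_right]
      have h2 : inner ℝ (h τ) (I * a τ * h τ) = 0 := by
        rw [Complex.inner]
        simp
        ring
      rw [h2, sub_zero]
    have h3 : ‖h τ‖ ≤ f τ := by
      refine Real.le_sqrt_of_sq_le ?_
      nlinarith [sq_nonneg (δ : ℝ)]
    rw [h1, norm_div, Real.norm_of_nonneg (hfpos τ).le, div_le_iff₀ (hfpos τ)]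
    calc ‖inner ℝ (h τ) (h' τ - I * a τ * h τ)‖ ≤ ‖h τ‖ * ‖h' τ - I * a τ * h τ‖ :=
          norm_inner_le_norm _ _
      _ ≤ f τ * ‖h' τ - I * a τ * h τ‖ := by gcongr
      _ = _ := mul_comm _ _
  have hsub' : uIoc t s ⊆ S := uIoc_subset_uIcc.trans hsub
  have h1 : ‖f s - f t‖ₑ ≤ ∫⁻ τ in S, ‖h' τ - I * a τ * h τ‖ₑ := by
    rw [← hint]
    have h2 : ‖∫ τ in t..s, inner ℝ (h τ) (h' τ) / f τ‖ₑ =
        ‖∫ τ in uIoc t s, inner ℝ (h τ) (h' τ) / f τ‖ₑ := by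
      have := intervalIntegral.norm_integral_eq_norm_integral_uIoc (μ := volume)
        (a := t) (b := s) (fun τ => inner ℝ (h τ) (h' τ) / f τ)
      rw [← ofReal_norm, ← ofReal_norm, this]
    rw [h2]
    calc ‖∫ τ in uIoc t s, inner ℝ (h τ) (h' τ) / f τ‖ₑ
        ≤ ∫⁻ τ in uIoc t s, ‖inner ℝ (h τ) (h' τ) / f τ‖ₑ := enorm_integral_le_lintegral_enorm _
      _ ≤ ∫⁻ τ in S, ‖inner ℝ (h τ) (h' τ) / f τ‖ₑ := lintegral_mono_set hsub'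
      _ ≤ _ := lintegral_mono fun τ => hle τ
  have h3 : ‖h s‖ ≤ f s := by
    refine Real.le_sqrt_of_sq_le ?_
    nlinarith [sq_nonneg (δ : ℝ)]
  have h4 : f t ≤ ‖h t‖ + δ := by
    refine Real.sqrt_le_iff.2 ⟨by positivity, ?_⟩
    nlinarith [norm_nonneg (h t)]
  have h5 : ‖h s‖ ≤ ‖h t‖ + δ + ‖f s - f t‖ := by
    have := Real.le_norm_self (f s - f t)
    linarith
  calc ‖h s‖ₑ = ENNReal.ofReal ‖h s‖ := (ofReal_norm _).symm
    _ ≤ ENNReal.ofReal (‖h t‖ + δ + ‖f s - f t‖) := ENNReal.ofReal_le_ofReal h5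
    _ = ‖h t‖ₑ + δ + ‖f s - f t‖ₑ := by
        rw [ENNReal.ofReal_add (by positivity) (norm_nonneg _),
          ENNReal.ofReal_add (norm_nonneg _) hδ'.le, ofReal_norm, ofReal_norm,
          ENNReal.ofReal_coe_nnreal]
    _ ≤ ‖h t‖ₑ + δ + ∫⁻ τ in S, ‖h' τ - I * a τ * h τ‖ₑ := by gcongr
    _ = _ := by ring

/-- Cauchy-Schwarz on a set of finite measure -/
theorem cs {X : Type*} [MeasurableSpace X] {μ : Measure X} {e : X → ℝ≥0∞} (he : AEMeasurable e μ)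
    {ℓ : ℝ≥0∞} (hℓ : μ univ ≤ ℓ) : (∫⁻ τ, e τ ∂μ) ^ 2 ≤ ℓ * ∫⁻ τ, e τ ^ 2 ∂μ := by
  have h1 := ENNReal.lintegral_mul_le_Lp_mul_Lq μ Real.HolderConjugate.two_two he
    (aemeasurable_const (b := (1 : ℝ≥0∞)))
  simp only [Pi.mul_apply, mul_one, ENNReal.one_rpow, lintegral_one] at h1
  calc (∫⁻ τ, e τ ∂μ) ^ 2 ≤ ((∫⁻ τ, e τ ^ (2 : ℝ) ∂μ) ^ (1 / 2 : ℝ) * (μ univ) ^ (1 / 2 : ℝ)) ^ 2 := by
        gcongr
    _ = (∫⁻ τ, e τ ^ (2 : ℝ) ∂μ) * μ univ := by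
        rw [mul_pow, ← ENNReal.rpow_natCast, ← ENNReal.rpow_natCast, ← ENNReal.rpow_mul,
          ← ENNReal.rpow_mul]
        norm_num
    _ ≤ (∫⁻ τ, e τ ^ (2 : ℝ) ∂μ) * ℓ := by gcongr
    _ = ℓ * ∫⁻ τ, e τ ^ 2 ∂μ := by
        rw [mul_comm]
        simp

/-- one-dimensional inequality -/
theorem slice {S : Set ℝ} (hSO : S.OrdConnected) (hSm : MeasurableSet S) {γ ℓ : ℝ}
    {h h' : ℝ → ℂ} {a : ℝ → ℝ}
    (hd : ∀ τ ∈ S, HasDerivAt h (h' τ) τ) (hc : ContinuousOn h' S)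
    (ha : AEMeasurable a (volume.restrict S))
    (hJ : Ioo γ (γ + 1) ⊆ S) (hℓ : volume S ≤ ENNReal.ofReal ℓ) (hℓ0 : 0 ≤ ℓ) :
    ∫⁻ s in S, ‖h s‖ₑ ^ 2 ≤ ENNReal.ofReal (2 * ℓ) * (∫⁻ s in Ioo γ (γ + 1), ‖h s‖ₑ ^ 2) +
      ENNReal.ofReal (2 * ℓ ^ 2) * (∫⁻ s in S, ‖h' s - I * a s * h s‖ₑ ^ 2) := by
  have hhc : ContinuousOn h (S) := fun τ hτ => (hd τ hτ).continuousAt.continuousWithinAt
  have hhm : AEMeasurable h (volume.restrict (S)) := hhc.aemeasurable hSm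
  have hh'm : AEMeasurable h' (volume.restrict (S)) := hc.aemeasurable hSm
  set Y := ∫⁻ s in S, ‖h' s - I * a s * h s‖ₑ ^ 2 with hY
  have hem : AEMeasurable (fun s => ‖h' s - I * a s * h s‖ₑ) (volume.restrict (S)) := by
    refine (hh'm.sub ((AEMeasurable.const_mul ?_ I).mul hhm)).enorm
    exact Complex.measurable_ofReal.comp_aemeasurable ha
  have hvol : (volume.restrict (S)) univ ≤ ENNReal.ofReal ℓ := by
    rw [Measure.restrict_apply_univ]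
    exact hℓ
  have h1 := cs hem hvol
  rw [← hY] at h1
  have h2 : ∀ s ∈ S, ∀ t ∈ Ioo γ (γ + 1),
      ‖h s‖ₑ ^ 2 ≤ 2 * ‖h t‖ₑ ^ 2 + 2 * (ENNReal.ofReal ℓ * Y) := by
    intro s hs t ht
    have h3 := slice_pt (a := a) hSO hd hc hs (hJ ht)
    calc ‖h s‖ₑ ^ 2 ≤ (‖h t‖ₑ + ∫⁻ τ in S, ‖h' τ - I * a τ * h τ‖ₑ) ^ 2 := by gcongr
      _ ≤ 2 * (‖h t‖ₑ ^ 2 + (∫⁻ τ in S, ‖h' τ - I * a τ * h τ‖ₑ) ^ 2) := by
          have := ENNReal.rpow_add_le_mul_rpow_add_rpow (‖h t‖ₑ)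
            (∫⁻ τ in S, ‖h' τ - I * a τ * h τ‖ₑ) (p := 2) (by norm_num)
          norm_num at this
          exact this
      _ ≤ 2 * (‖h t‖ₑ ^ 2 + ENNReal.ofReal ℓ * Y) := by gcongr
      _ = _ := by ring
  have h3 : ∀ s ∈ S, ‖h s‖ₑ ^ 2 ≤ 2 * (∫⁻ t in Ioo γ (γ + 1), ‖h t‖ₑ ^ 2) +
      2 * (ENNReal.ofReal ℓ * Y) := by
    intro s hs
    have h4 : ∫⁻ t in Ioo γ (γ + 1), ‖h s‖ₑ ^ 2 ≤
        ∫⁻ t in Ioo γ (γ + 1), (2 * ‖h t‖ₑ ^ 2 + 2 * (ENNReal.ofReal ℓ * Y)) :=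
      setLIntegral_mono' measurableSet_Ioo fun t ht => h2 s hs t ht
    have hv1 : volume (Ioo γ (γ + 1)) = 1 := by
      rw [Real.volume_Ioo]
      simp
    rw [lintegral_const, Measure.restrict_apply_univ, hv1, mul_one,
      lintegral_add_right _ measurable_const, lintegral_const, Measure.restrict_apply_univ, hv1,
      mul_one, lintegral_const_mul' _ _ (by norm_num)] at h4
    exact h4
  calc ∫⁻ s in S, ‖h s‖ₑ ^ 2
      ≤ ∫⁻ s in S, (2 * (∫⁻ t in Ioo γ (γ + 1), ‖h t‖ₑ ^ 2) + 2 * (ENNReal.ofReal ℓ * Y)) :=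
        setLIntegral_mono' hSm fun s hs => h3 s hs
    _ = (2 * (∫⁻ t in Ioo γ (γ + 1), ‖h t‖ₑ ^ 2) + 2 * (ENNReal.ofReal ℓ * Y)) *
        (volume.restrict (S)) univ := lintegral_const _
    _ ≤ (2 * (∫⁻ t in Ioo γ (γ + 1), ‖h t‖ₑ ^ 2) + 2 * (ENNReal.ofReal ℓ * Y)) *
        ENNReal.ofReal ℓ := by gcongr
    _ = _ := by
        rw [ENNReal.ofReal_mul (by norm_num), ENNReal.ofReal_mul (by norm_num),
          ENNReal.ofReal_pow hℓ0, ENNReal.ofReal_ofNat]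
        ring

end Pool.Agent.Q171.Mag
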